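import Mathlib

/-!
# Arithmetic for the constant-depth memory: the inequality of the real parameters
-/

set_option autoImplicit false

namespace Pool.Agent.J4H17.CDC

/-- The core: with `F = T w B / (δ² Q)`, `30 F ≤ v ≤ 31 F`, the error terms are smaller than the
main term. -/
theorem core (n E Q δ η s w T B K A D C v k : ℝ) (hn : 1 ≤ n) (hE : 1 ≤ E) (hQ0 : 0 < Q)
    (hδ0 : 0 < δ) (hδ1 : δ ≤ 1 / 2) (hη0 : 0 ≤ η) (hη : n ^ 2 * E * η ≤ D)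
    (hs : 1 ≤ s) (hw : 1 ≤ w) (hT : 1 ≤ T) (hK : 0 ≤ K) (hB : B = K + 1) (hA : 1 ≤ A)
    (hAQ : 1 ≤ A * E * Q ^ 6) (hD : 0 ≤ D)
    (hC : C = 16 * 31 ^ 4 * B ^ 6 * A * (D + 1))
    (hX : C * (s * (w * T) ^ 5) * E ≤ δ ^ 11 * n ^ 2)
    (hv : 1 ≤ v) (hv1 : 30 * (T * w * B) ≤ v * (δ ^ 2 * Q))
    (hv2 : v * (δ ^ 2 * Q) ≤ 31 * (T * w * B)) (hk0 : 0 < k) (hk : n ≤ 2 * k * v ^ 2)
    (V : ℝ) (hV : V * (δ / v * Q) ≤ 5 * B) :
    k ^ 2 * v ^ 2 * (2 * (s * w) * η) + k ^ 2 * (2 * (T * w * V)) +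
      (s * w) * (K ^ 2 + (2 * (k * v ^ 2)) ^ 2 * η) / (δ / v * Q) ^ 2 <
    (2 * δ - v ^ 2 * (δ / v / 2) ^ 2) * (k ^ 2 * v ^ 2) := by
  have hB1 : 1 ≤ B := by rw [hB]; linarith
  set X : ℝ := s * (w * T) ^ 5 with hXd
  have hwT : 1 ≤ w * T := by nlinarith
  have hX0 : 0 < X := by positivity
  have hC0 : 0 < C := by rw [hC]; positivity
  have hB6 : (1 : ℝ) ≤ B ^ 6 := one_le_pow₀ hB1
  have hB4 : (1 : ℝ) ≤ B ^ 4 := one_le_pow₀ hB1
  have hB46 : B ^ 4 ≤ B ^ 6 := pow_le_pow_right₀ hB1 (by norm_num)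
  have hswX : s * w * (T * w) ^ 4 ≤ X := by
    have : X = s * w * (T * w) ^ 4 * T := by rw [hXd]; ring
    rw [this]
    exact le_mul_of_one_le_right (by positivity) hT
  have hsw : s * w ≤ X := by
    have h4 : (1 : ℝ) ≤ (T * w) ^ 4 := one_le_pow₀ (by nlinarith)
    exact le_trans (le_mul_of_one_le_right (by positivity) h4) hswX
  have hCX0 : 0 ≤ C * X := by positivity
  have hCXQ : C * X ≤ δ ^ 11 * n ^ 2 * (A * Q ^ 6) := by
    have h2 : C * X ≤ C * X * (A * E * Q ^ 6) := le_mul_of_one_le_right hCX0 hAQ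
    have h3 : C * X * (A * E * Q ^ 6) = (C * X * E) * (A * Q ^ 6) := by ring
    have h4 : (C * X * E) * (A * Q ^ 6) ≤ (δ ^ 11 * n ^ 2) * (A * Q ^ 6) :=
      mul_le_mul_of_nonneg_right hX (by positivity)
    rw [h3] at h2
    exact le_trans h2 h4 |>.trans (le_of_eq (by ring))
  -- constants
  have hC1 : 16 * 31 ^ 4 * B ^ 6 * A ≤ C := by
    rw [hC]; exact le_mul_of_one_le_right (by positivity) (by linarith)
  have hC2 : 16 * 31 ^ 4 * B ^ 4 * A * D ≤ C := by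
    rw [hC]
    have h1 : 16 * 31 ^ 4 * B ^ 4 * A ≤ 16 * 31 ^ 4 * B ^ 6 * A := by
      have : 16 * 31 ^ 4 * B ^ 4 ≤ 16 * 31 ^ 4 * B ^ 6 := by linarith
      exact mul_le_mul_of_nonneg_right this (by linarith)
    exact mul_le_mul h1 (by linarith) hD (by positivity)
  have hC3 : 8 * D ≤ C := by
    have h1 : (8 : ℝ) ≤ 16 * 31 ^ 4 * B ^ 4 * A := by
      have := one_le_mul_of_one_le_of_one_le hB4 hA
      nlinarith
    exact le_trans (mul_le_mul_of_nonneg_right h1 hD) hC2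
  -- (vG)^4
  have hvG : (v * (δ ^ 2 * Q)) ^ 4 ≤ (31 * (T * w * B)) ^ 4 :=
    pow_le_pow_left₀ (by positivity) hv2 4
  -- T3
  have h3 : 16 * (s * w) * K ^ 2 * v ^ 4 ≤ δ ^ 3 * Q ^ 2 * n ^ 2 := by
    have hG : 0 < (δ ^ 2 * Q) ^ 4 := by positivity
    refine le_of_mul_le_mul_right ?_ hG
    have e1 : 16 * (s * w) * K ^ 2 * v ^ 4 * (δ ^ 2 * Q) ^ 4 =
        16 * (s * w) * K ^ 2 * (v * (δ ^ 2 * Q)) ^ 4 := by ring
    have e2 : δ ^ 3 * Q ^ 2 * n ^ 2 * (δ ^ 2 * Q) ^ 4 = δ ^ 11 * Q ^ 6 * n ^ 2 := by ring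
    rw [e1, e2]
    have h5 : 16 * (s * w) * K ^ 2 * (v * (δ ^ 2 * Q)) ^ 4 ≤
        16 * 31 ^ 4 * B ^ 6 * X := by
      have hKB : K ^ 2 ≤ B ^ 2 := pow_le_pow_left₀ hK (by linarith) 2
      calc 16 * (s * w) * K ^ 2 * (v * (δ ^ 2 * Q)) ^ 4
          ≤ 16 * (s * w) * B ^ 2 * (31 * (T * w * B)) ^ 4 := by
            refine mul_le_mul ?_ hvG (by positivity) (by positivity)
            exact mul_le_mul_of_nonneg_left hKB (by positivity)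
        _ = 16 * 31 ^ 4 * B ^ 6 * (s * w * (T * w) ^ 4) := by ring
        _ ≤ 16 * 31 ^ 4 * B ^ 6 * X := mul_le_mul_of_nonneg_left hswX (by positivity)
    refine le_trans h5 ?_
    refine le_of_mul_le_mul_right (a := A) ?_ (by linarith)
    calc 16 * 31 ^ 4 * B ^ 6 * X * A = 16 * 31 ^ 4 * B ^ 6 * A * X := by ring
      _ ≤ C * X := mul_le_mul_of_nonneg_right hC1 hX0.le
      _ ≤ δ ^ 11 * n ^ 2 * (A * Q ^ 6) := hCXQ
      _ = δ ^ 11 * Q ^ 6 * n ^ 2 * A := by ring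
  -- T4
  have h4 : 16 * (s * w) * v ^ 4 * η ≤ δ ^ 3 * Q ^ 2 := by
    have hG : 0 < (δ ^ 2 * Q) ^ 4 := by positivity
    refine le_of_mul_le_mul_right ?_ hG
    have e1 : 16 * (s * w) * v ^ 4 * η * (δ ^ 2 * Q) ^ 4 =
        16 * (s * w) * (v * (δ ^ 2 * Q)) ^ 4 * η := by ring
    have e2 : δ ^ 3 * Q ^ 2 * (δ ^ 2 * Q) ^ 4 = δ ^ 11 * Q ^ 6 := by ring
    rw [e1, e2]
    have h5 : 16 * (s * w) * (v * (δ ^ 2 * Q)) ^ 4 * η ≤ 16 * 31 ^ 4 * B ^ 4 * X * η := by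
      refine mul_le_mul_of_nonneg_right ?_ hη0
      calc 16 * (s * w) * (v * (δ ^ 2 * Q)) ^ 4
          ≤ 16 * (s * w) * (31 * (T * w * B)) ^ 4 :=
            mul_le_mul_of_nonneg_left hvG (by positivity)
        _ = 16 * 31 ^ 4 * B ^ 4 * (s * w * (T * w) ^ 4) := by ring
        _ ≤ 16 * 31 ^ 4 * B ^ 4 * X := mul_le_mul_of_nonneg_left hswX (by positivity)
    refine le_trans h5 ?_
    have hpos : 0 < A * (n ^ 2 * E) := by positivity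
    refine le_of_mul_le_mul_right (a := A * (n ^ 2 * E)) ?_ hpos
    calc 16 * 31 ^ 4 * B ^ 4 * X * η * (A * (n ^ 2 * E))
        = 16 * 31 ^ 4 * B ^ 4 * A * X * (n ^ 2 * E * η) := by ring
      _ ≤ 16 * 31 ^ 4 * B ^ 4 * A * X * D := mul_le_mul_of_nonneg_left hη (by positivity)
      _ = 16 * 31 ^ 4 * B ^ 4 * A * D * X := by ring
      _ ≤ C * X := mul_le_mul_of_nonneg_right hC2 hX0.le
      _ ≤ δ ^ 11 * n ^ 2 * (A * Q ^ 6) := hCXQ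
      _ ≤ δ ^ 11 * n ^ 2 * (A * Q ^ 6) * E := le_mul_of_one_le_right (by positivity) hE
      _ = δ ^ 11 * Q ^ 6 * (A * (n ^ 2 * E)) := by ring
  -- T1
  have h1 : 8 * (s * w) * η ≤ δ := by
    have hpos : 0 < n ^ 2 * E := by positivity
    refine le_of_mul_le_mul_right (a := n ^ 2 * E) ?_ hpos
    have hδ : δ ^ 11 ≤ δ := by
      have : δ ^ 11 ≤ δ ^ 1 := pow_le_pow_of_le_one hδ0.le (by linarith) (by norm_num)
      simpa using this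
    calc 8 * (s * w) * η * (n ^ 2 * E) = 8 * (s * w) * (n ^ 2 * E * η) := by ring
      _ ≤ 8 * (s * w) * D := mul_le_mul_of_nonneg_left hη (by positivity)
      _ ≤ 8 * X * D := mul_le_mul_of_nonneg_right (by linarith) hD
      _ = 8 * D * X := by ring
      _ ≤ C * X := mul_le_mul_of_nonneg_right hC3 hX0.le
      _ ≤ C * X * E := le_mul_of_one_le_right hCX0 hE
      _ ≤ δ ^ 11 * n ^ 2 := hX
      _ ≤ δ * n ^ 2 := mul_le_mul_of_nonneg_right hδ (by positivity)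
      _ ≤ δ * n ^ 2 * E := le_mul_of_one_le_right (by positivity) hE
      _ = δ * (n ^ 2 * E) := by ring
  have hv0 : 0 < v := by linarith
  -- the four terms
  have t1 : k ^ 2 * v ^ 2 * (2 * (s * w) * η) ≤ δ / 4 * (k ^ 2 * v ^ 2) := by
    have h8 : 2 * (s * w) * η ≤ δ / 4 := by linarith only [h1]
    calc k ^ 2 * v ^ 2 * (2 * (s * w) * η) ≤ k ^ 2 * v ^ 2 * (δ / 4) :=
          mul_le_mul_of_nonneg_left h8 (by positivity)
      _ = δ / 4 * (k ^ 2 * v ^ 2) := by ring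
  have t2 : k ^ 2 * (2 * (T * w * V)) ≤ δ / 3 * (k ^ 2 * v ^ 2) := by
    have h6 : V * (δ * Q) ≤ 5 * B * v := by
      have : V * (δ / v * Q) = V * (δ * Q) / v := by ring
      rw [this, div_le_iff₀ hv0] at hV
      exact hV
    have h7 : 2 * (T * w * V) ≤ δ / 3 * v ^ 2 := by
      refine le_of_mul_le_mul_right (a := δ * Q) ?_ (by positivity)
      calc 2 * (T * w * V) * (δ * Q) = 2 * (T * w) * (V * (δ * Q)) := by ring
        _ ≤ 2 * (T * w) * (5 * B * v) := mul_le_mul_of_nonneg_left h6 (by positivity)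
        _ = (30 * (T * w * B)) * v / 3 := by ring
        _ ≤ (v * (δ ^ 2 * Q)) * v / 3 := by
            have h9 := mul_le_mul_of_nonneg_right hv1 hv0.le
            linarith only [h9]
        _ = δ / 3 * v ^ 2 * (δ * Q) := by ring
    calc k ^ 2 * (2 * (T * w * V)) ≤ k ^ 2 * (δ / 3 * v ^ 2) :=
          mul_le_mul_of_nonneg_left h7 (by positivity)
      _ = δ / 3 * (k ^ 2 * v ^ 2) := by ring
  have e5 : (δ / v * Q) ^ 2 = δ ^ 2 * Q ^ 2 / v ^ 2 := by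
    field_simp
  have hn2 : n ^ 2 ≤ 4 * k ^ 2 * v ^ 4 := by
    calc n ^ 2 ≤ (2 * k * v ^ 2) ^ 2 := pow_le_pow_left₀ (by linarith : 0 ≤ n) hk 2
      _ = 4 * k ^ 2 * v ^ 4 := by ring
  have t34 : (s * w) * (K ^ 2 + (2 * (k * v ^ 2)) ^ 2 * η) / (δ / v * Q) ^ 2 ≤
      δ / 2 * (k ^ 2 * v ^ 2) := by
    rw [e5, div_div_eq_mul_div, div_le_iff₀ (by positivity)]
    -- s w K^2 v^2 ≤ (δ/4) k^2 v^2 δ^2 Q^2
    have a1 : (s * w) * K ^ 2 ≤ δ / 4 * k ^ 2 * (δ ^ 2 * Q ^ 2) := by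
      refine le_of_mul_le_mul_right (a := 16 * v ^ 4) ?_ (by positivity)
      calc (s * w) * K ^ 2 * (16 * v ^ 4) = 16 * (s * w) * K ^ 2 * v ^ 4 := by ring
        _ ≤ δ ^ 3 * Q ^ 2 * n ^ 2 := h3
        _ ≤ δ ^ 3 * Q ^ 2 * (4 * k ^ 2 * v ^ 4) := mul_le_mul_of_nonneg_left hn2 (by positivity)
        _ = δ / 4 * k ^ 2 * (δ ^ 2 * Q ^ 2) * (16 * v ^ 4) := by ring
    have a2 : (s * w) * ((2 * (k * v ^ 2)) ^ 2 * η) ≤ δ / 4 * k ^ 2 * (δ ^ 2 * Q ^ 2) := by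
      calc (s * w) * ((2 * (k * v ^ 2)) ^ 2 * η) = k ^ 2 / 4 * (16 * (s * w) * v ^ 4 * η) := by
            ring
        _ ≤ k ^ 2 / 4 * (δ ^ 3 * Q ^ 2) := mul_le_mul_of_nonneg_left h4 (by positivity)
        _ = δ / 4 * k ^ 2 * (δ ^ 2 * Q ^ 2) := by ring
    have a3 : (s * w) * (K ^ 2 + (2 * (k * v ^ 2)) ^ 2 * η) ≤
        δ / 2 * k ^ 2 * (δ ^ 2 * Q ^ 2) := by
      have e7 : (s * w) * (K ^ 2 + (2 * (k * v ^ 2)) ^ 2 * η) =
        (s * w) * K ^ 2 + (s * w) * ((2 * (k * v ^ 2)) ^ 2 * η) := by ring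
      rw [e7]
      linarith only [a1, a2]
    calc (s * w) * (K ^ 2 + (2 * (k * v ^ 2)) ^ 2 * η) * v ^ 2 ≤
          δ / 2 * k ^ 2 * (δ ^ 2 * Q ^ 2) * v ^ 2 :=
            mul_le_mul_of_nonneg_right a3 (by positivity)
      _ = δ / 2 * (k ^ 2 * v ^ 2) * (δ ^ 2 * Q ^ 2) := by ring
  have e6 : v ^ 2 * (δ / v / 2) ^ 2 = δ ^ 2 / 4 := by
    field_simp
    ring
  rw [e6]
  have hkv : 0 < k ^ 2 * v ^ 2 := by positivity
  have hdd0 : δ * δ ≤ δ * (1 / 2) := mul_le_mul_of_nonneg_left hδ1 hδ0.le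
  have hdd : δ ^ 2 / 4 ≤ δ / 8 := by rw [sq]; linarith only [hdd0]
  have hlast : δ / 4 + δ / 3 + δ / 2 < 2 * δ - δ ^ 2 / 4 := by linarith only [hdd, hδ0]
  have h9 := mul_lt_mul_of_pos_right hlast hkv
  have e8 : (δ / 4 + δ / 3 + δ / 2) * (k ^ 2 * v ^ 2) = δ / 4 * (k ^ 2 * v ^ 2) +
    δ / 3 * (k ^ 2 * v ^ 2) + δ / 2 * (k ^ 2 * v ^ 2) := by ring
  rw [e8] at h9
  linarith only [h9, t1, t2, t34]

end Pool.Agent.J4H17.CDC
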