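import Pool.Agent.J4H85.CD.Stm
import Pool.Agent.J4H17.CDC.AriCore

/-!
# Arithmetic for the constant-depth memory (piece ARI)
-/

set_option autoImplicit false

namespace Pool.Agent.J4H17.CDC

open Pool.Agent.J4H85.CD H568R2

/-- The case of large blocks. -/
theorem core2 (n E Q δ s w T B K A D C v : ℝ) (hn : 1 ≤ n) (hE : 1 ≤ E) (hQ0 : 0 < Q)
    (hQ1 : Q ≤ 1) (hδ0 : 0 < δ) (hδ1 : δ ≤ 1 / 2)
    (hs : 1 ≤ s) (hw : 1 ≤ w) (hT : 1 ≤ T) (hK : 0 ≤ K) (hB : B = K + 1) (hA : 1 ≤ A)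
    (hAQ : 1 ≤ A * E * Q ^ 6) (hD : 0 ≤ D)
    (hC : C = 16 * 31 ^ 4 * B ^ 6 * A * (D + 1))
    (hX : C * (s * (w * T) ^ 5) * E < δ ^ 11 * n ^ 2)
    (hv : 1 ≤ v) (hv2 : v * (δ ^ 2 * Q) ≤ 31 * (T * w * B)) (hnv : n ≤ v ^ 2) : False := by
  have hB1 : 1 ≤ B := by rw [hB]; linarith only [hK]
  set X : ℝ := s * (w * T) ^ 5 with hXd
  have hwT : 1 ≤ w * T := one_le_mul_of_one_le_of_one_le hw hT
  have hX0 : 0 < X := by positivity
  have hB46 : B ^ 4 ≤ B ^ 6 := pow_le_pow_right₀ hB1 (by norm_num)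
  have hX4 : (T * w) ^ 4 ≤ X := by
    have : X = (T * w) ^ 4 * (s * (w * T)) := by rw [hXd]; ring
    rw [this]
    exact le_mul_of_one_le_right (by positivity) (one_le_mul_of_one_le_of_one_le hs hwT)
  have hvG : (v * (δ ^ 2 * Q)) ^ 4 ≤ (31 * (T * w * B)) ^ 4 :=
    pow_le_pow_left₀ (by positivity) hv2 4
  have hn2 : n ^ 2 ≤ v ^ 4 := by
    calc n ^ 2 ≤ (v ^ 2) ^ 2 := pow_le_pow_left₀ (by linarith only [hn]) hnv 2
      _ = v ^ 4 := by ring
  have h1 : δ ^ 11 * n ^ 2 * Q ^ 6 ≤ 31 ^ 4 * B ^ 4 * X := by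
    have hδ : δ ^ 11 ≤ δ ^ 8 := pow_le_pow_of_le_one hδ0.le (by linarith only [hδ1]) (by norm_num)
    have hQ : Q ^ 6 ≤ Q ^ 4 := pow_le_pow_of_le_one hQ0.le hQ1 (by norm_num)
    calc δ ^ 11 * n ^ 2 * Q ^ 6 ≤ δ ^ 8 * v ^ 4 * Q ^ 4 := by
          refine mul_le_mul (mul_le_mul hδ hn2 (by positivity) (by positivity)) hQ
            (by positivity) (by positivity)
      _ = (v * (δ ^ 2 * Q)) ^ 4 := by ring
      _ ≤ (31 * (T * w * B)) ^ 4 := hvG
      _ = 31 ^ 4 * B ^ 4 * (T * w) ^ 4 := by ring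
      _ ≤ 31 ^ 4 * B ^ 4 * X := mul_le_mul_of_nonneg_left hX4 (by positivity)
  have hC1 : 31 ^ 4 * B ^ 4 * A ≤ C := by
    rw [hC]
    have h2 : 31 ^ 4 * B ^ 4 * A ≤ 16 * 31 ^ 4 * B ^ 6 * A := by
      have h3 : 31 ^ 4 * B ^ 4 ≤ 16 * 31 ^ 4 * B ^ 6 := by
        have : 0 ≤ B ^ 6 := by positivity
        linarith only [hB46, this]
      exact mul_le_mul_of_nonneg_right h3 (by linarith only [hA])
    exact le_trans h2 (le_mul_of_one_le_right (by positivity) (by linarith only [hD]))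
  have hfin : δ ^ 11 * n ^ 2 ≤ C * X * E := by
    calc δ ^ 11 * n ^ 2 ≤ δ ^ 11 * n ^ 2 * (A * E * Q ^ 6) :=
          le_mul_of_one_le_right (by positivity) hAQ
      _ = (δ ^ 11 * n ^ 2 * Q ^ 6) * (A * E) := by ring
      _ ≤ (31 ^ 4 * B ^ 4 * X) * (A * E) := mul_le_mul_of_nonneg_right h1 (by positivity)
      _ = (31 ^ 4 * B ^ 4 * A) * (X * E) := by ring
      _ ≤ C * (X * E) := mul_le_mul_of_nonneg_right hC1 (by positivity)
      _ = C * X * E := by ring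
  exact absurd hX (not_lt.2 hfin)

theorem t_ARI : S_ARI := by
  intro d a ε hε
  set e : ℝ := ε / (6 * (d + 1)) with he
  have he0 : 0 < e := by positivity
  set m : ℕ := ⌈(2 * a + 3 + ε) / e⌉₊ with hm
  have hm1 : 1 ≤ m := Nat.one_le_iff_ne_zero.2 (by
    rw [hm]; exact (Nat.ceil_pos.2 (by positivity)).ne')
  have hme : 2 * (a : ℝ) + 3 + ε ≤ e * m := by
    have h1 : (2 * a + 3 + ε) / e ≤ m := Nat.le_ceil _
    rw [div_le_iff₀ he0] at h1
    linarith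
  set K : ℝ := (KK m d : ℝ) with hK
  have hK0 : 0 ≤ K := Nat.cast_nonneg _
  set A : ℝ := 3 ^ (6 * d) with hA
  have hA1 : 1 ≤ A := one_le_pow₀ (by norm_num)
  set D : ℝ := 4 * d * (4 ^ (KK m d)) ^ m with hD
  have hD0 : 0 ≤ D := by positivity
  refine ⟨16 * 31 ^ 4 * (K + 1) ^ 6 * A * (D + 1), by positivity, ?_⟩
  intro n L s w T δ hn hL hs hw hT hδ0 hδ1 H
  have hnR : (1 : ℝ) ≤ n := by exact_mod_cast hn
  have hn0 : (0 : ℝ) < n := by linarith
  have hsR : (1 : ℝ) ≤ s := by exact_mod_cast hs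
  have hwR : (1 : ℝ) ≤ w := by exact_mod_cast hw
  have hTR : (1 : ℝ) ≤ T := by exact_mod_cast hT
  set P : ℝ := (n : ℝ) ^ e with hP
  have hP1 : 1 ≤ P := Real.one_le_rpow hnR he0.le
  have hP0 : 0 < P := by linarith
  set E : ℝ := (n : ℝ) ^ ε with hE
  have hE1 : 1 ≤ E := Real.one_le_rpow hnR hε.le
  have hE0 : 0 < E := by linarith
  have hEP : E = P ^ (6 * (d + 1)) := by
    rw [hE, hP, ← Real.rpow_mul_natCast hn0.le, he]
    congr 1
    push_cast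
    field_simp
  set q : ℝ := 1 / (3 * P) with hq
  have hq0 : 0 < q := by positivity
  have hq1 : q ≤ 1 / 3 := by
    rw [hq]
    exact one_div_le_one_div_of_le (by norm_num) (by linarith)
  have h3q : 3 * q = 1 / P := by rw [hq]; field_simp
  set Q : ℝ := q ^ d with hQ
  have hQ0 : 0 < Q := by positivity
  have hQ1 : Q ≤ 1 := pow_le_one₀ hq0.le (by linarith)
  have hAQ : 1 ≤ A * E * Q ^ 6 := by
    have h1 : A * E * Q ^ 6 = P ^ 6 := by
      have h2 : Q ^ 6 = 1 / (3 ^ (6 * d) * P ^ (6 * d)) := by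
        rw [hQ, hq, ← pow_mul, mul_comm d 6, one_div_pow, mul_pow]
      rw [h2, hEP, hA]
      have : P ^ (6 * (d + 1)) = P ^ (6 * d) * P ^ 6 := by
        rw [← pow_add]; congr 1
      rw [this]
      field_simp
    rw [h1]
    exact one_le_pow₀ hP1
  set η : ℝ := eta d m (n ^ a) (2 * (n * L)) q with hη
  have hη0 : 0 ≤ η := by
    rw [hη]; unfold eta; positivity
  have hηD : (n : ℝ) ^ 2 * E * η ≤ D := by
    have h1 : ((n ^ a * (2 * (n * L) + n ^ a + 1) : ℕ) : ℝ) ≤ 4 * (n : ℝ) ^ (2 * a + 1) := by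
      have h2 : n ^ a * (2 * (n * L) + n ^ a + 1) ≤ 4 * n ^ (2 * a + 1) := by
        have h3 : n ^ a ≤ n ^ (a + 1) := Nat.pow_le_pow_right hn (by omega)
        have h4 : 1 ≤ n ^ (a + 1) := Nat.one_le_pow _ _ hn
        have h5 : n * L ≤ n ^ (a + 1) := by
          rw [pow_succ, mul_comm]
          exact Nat.mul_le_mul_right _ hL
        calc n ^ a * (2 * (n * L) + n ^ a + 1) ≤ n ^ a * (4 * n ^ (a + 1)) :=
              Nat.mul_le_mul_left _ (by omega)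
          _ = 4 * n ^ (2 * a + 1) := by ring
      exact_mod_cast h2
    have h6 : (4 ^ (KK m d) * (3 * q)) ^ m = (4 ^ (KK m d)) ^ m / P ^ m := by
      rw [h3q, mul_pow, one_div_pow]; ring
    have h7 : (n : ℝ) ^ (2 * a + 3) * E ≤ P ^ m := by
      rw [hP, ← Real.rpow_mul_natCast hn0.le, hE, ← Real.rpow_natCast, ← Real.rpow_add hn0]
      refine Real.rpow_le_rpow_of_exponent_le hnR ?_
      push_cast
      linarith
    have h8 : η ≤ d * (4 * (n : ℝ) ^ (2 * a + 1)) * ((4 ^ (KK m d)) ^ m / P ^ m) := by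
      rw [hη]; unfold eta; rw [h6]
      refine mul_le_mul_of_nonneg_right ?_ (by positivity)
      exact mul_le_mul_of_nonneg_left h1 (Nat.cast_nonneg _)
    have hPm : 0 < P ^ m := by positivity
    calc (n : ℝ) ^ 2 * E * η
        ≤ (n : ℝ) ^ 2 * E * (d * (4 * (n : ℝ) ^ (2 * a + 1)) * ((4 ^ (KK m d)) ^ m / P ^ m)) :=
          mul_le_mul_of_nonneg_left h8 (by positivity)
      _ = D * (((n : ℝ) ^ (2 * a + 3) * E) / P ^ m) := by
          rw [hD, show 2 * a + 3 = 2 + (2 * a + 1) by ring, pow_add]; ring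
      _ ≤ D * 1 := by
          refine mul_le_mul_of_nonneg_left ?_ hD0
          rw [div_le_one hPm]; exact h7
      _ = D := mul_one _
  by_contra hcon
  rw [not_le] at hcon
  have hX : (16 * 31 ^ 4 * (K + 1) ^ 6 * A * (D + 1)) * ((s : ℝ) * (w * T) ^ 5) * E <
      δ ^ 11 * (n : ℝ) ^ 2 := by
    have h1 : (n : ℝ) ^ (2 - ε) * E = (n : ℝ) ^ 2 := by
      rw [hE, ← Real.rpow_add hn0]
      have : (2 - ε + ε : ℝ) = ((2 : ℕ) : ℝ) := by push_cast; ring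
      rw [this, Real.rpow_natCast]
    calc (16 * 31 ^ 4 * (K + 1) ^ 6 * A * (D + 1)) * ((s : ℝ) * (w * T) ^ 5) * E
        = ((16 * 31 ^ 4 * (K + 1) ^ 6 * A * (D + 1)) * (s : ℝ) * (w * T) ^ 5) * E := by ring
      _ < δ ^ 11 * (n : ℝ) ^ (2 - ε) * E := mul_lt_mul_of_pos_right hcon hE0
      _ = δ ^ 11 * (n : ℝ) ^ 2 := by rw [mul_assoc, h1]
  have hB1 : (1 : ℝ) ≤ K + 1 := by linarith
  have hG0 : 0 < δ ^ 2 * Q := by positivity
  have hG1 : δ ^ 2 * Q ≤ 1 := mul_le_one₀ (pow_le_one₀ hδ0.le (by linarith)) hQ0.le hQ1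
  set F : ℝ := T * w * (K + 1) / (δ ^ 2 * Q) with hF
  have hTw : (1 : ℝ) ≤ T * w * (K + 1) :=
    one_le_mul_of_one_le_of_one_le (one_le_mul_of_one_le_of_one_le hTR hwR) hB1
  have hF1 : 1 ≤ F := by
    rw [hF, le_div_iff₀ hG0]; linarith
  have hFG : F * (δ ^ 2 * Q) = T * w * (K + 1) := by
    rw [hF]; field_simp
  set v : ℕ := ⌈30 * F⌉₊ with hv
  have hvl : 30 * F ≤ v := Nat.le_ceil _
  have hvu : (v : ℝ) ≤ 31 * F := by
    have := (Nat.ceil_lt_add_one (by positivity : 0 ≤ 30 * F)).le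
    linarith
  have hv1R : (1 : ℝ) ≤ v := by linarith
  have hv1 : 1 ≤ v := by exact_mod_cast hv1R
  have hv0 : (0 : ℝ) < v := by linarith
  have c1 : 30 * ((T : ℝ) * w * (K + 1)) ≤ v * (δ ^ 2 * Q) := by
    rw [← hFG]
    exact le_trans (le_of_eq (by ring)) (mul_le_mul_of_nonneg_right hvl hG0.le)
  have c2 : (v : ℝ) * (δ ^ 2 * Q) ≤ 31 * (T * w * (K + 1)) := by
    rw [← hFG]
    exact le_trans (mul_le_mul_of_nonneg_right hvu hG0.le) (le_of_eq (by ring))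
  by_cases hu : n < v ^ 2
  · have hnv : (n : ℝ) ≤ (v : ℝ) ^ 2 := by exact_mod_cast hu.le
    exact core2 n E Q δ s w T (K + 1) K A D _ v hnR hE1 hQ0 hQ1 hδ0 hδ1 hsR hwR hTR hK0 rfl hA1
      hAQ hD0 rfl hX hv1R c2 hnv
  · rw [not_lt] at hu
    have hupos : 0 < v ^ 2 := Nat.pow_pos hv1
    set k : ℕ := n / v ^ 2 with hk
    have hk1 : 1 ≤ k := (Nat.one_le_div_iff hupos).2 hu
    have hku : k * v ^ 2 ≤ n := Nat.div_mul_le_self _ _
    have hkn : n ≤ 2 * k * v ^ 2 := by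
      have h1 : n < v ^ 2 * (n / v ^ 2 + 1) := Nat.lt_mul_div_succ n hupos
      have h2 : v ^ 2 * (n / v ^ 2 + 1) ≤ v ^ 2 * (2 * k) :=
        Nat.mul_le_mul_left _ (by rw [← hk]; omega)
      calc n ≤ v ^ 2 * (2 * k) := le_trans h1.le h2
        _ = 2 * k * v ^ 2 := by ring
    have hk0 : (0 : ℝ) < k := by exact_mod_cast hk1
    have hy0 : 0 < δ / v := by positivity
    have hy1 : δ / v ≤ 1 := by
      rw [div_le_one hv0]; linarith
    have hyQ0 : 0 < δ / v * Q := by positivity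
    have hyQ1 : δ / v * Q ≤ 1 := mul_le_one₀ hy1 hQ0.le hQ1
    set V : ℕ := ⌈4 * (K + 1) / (δ / v * Q)⌉₊ with hV
    have hVl : 4 * (K + 1) ≤ V * (δ / v * Q) := by
      have := Nat.le_ceil (4 * (K + 1) / (δ / v * Q))
      rwa [div_le_iff₀ hyQ0] at this
    have hVu : V * (δ / v * Q) ≤ 5 * (K + 1) := by
      have h1 := (Nat.ceil_lt_add_one (by positivity : 0 ≤ 4 * (K + 1) / (δ / v * Q))).le
      have h2 := mul_le_mul_of_nonneg_right h1 hyQ0.le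
      have h3 : (4 * (K + 1) / (δ / v * Q) + 1) * (δ / v * Q) = 4 * (K + 1) + δ / v * Q := by
        field_simp
      rw [h3] at h2
      linarith
    have hH := H k (v ^ 2) V m q (δ / v) hk1 hupos hku hm1 hq0 hq1 hy0 hy1 hVl
    have hcore := core n E Q δ η s w T (K + 1) K A D _ v k hnR hE1 hQ0 hδ0 hδ1 hη0 hηD hsR hwR
      hTR hK0 rfl hA1 hAQ hD0 rfl hX.le hv1R c1 c2 hk0 (by exact_mod_cast hkn) V hVu
    push_cast at hH
    exact absurd hH (not_le.2 hcore)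

end Pool.Agent.J4H17.CDC
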