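import Pool.Agent.J4H85.CD.Stm2
import Pool.Agent.J4H17.CDC.Ari2Core

/-!
# Arithmetic for the constant-depth memory (piece ARI2)
-/

set_option autoImplicit false

namespace Pool.Agent.J4H17.CDC

open Pool.Agent.J4H85.CD H568R2

/-- The case of large blocks. -/
theorem core4 (n E Q δ s w T B K A C v : ℝ) (hn : 1 ≤ n) (hE : 1 ≤ E) (hQ0 : 0 < Q)
    (hQ1 : Q ≤ 1) (hδ0 : 0 < δ) (hδ1 : δ ≤ 1 / 2)
    (hs : 1 ≤ s) (hw : 1 ≤ w) (hT : 1 ≤ T) (hK : 0 ≤ K) (hB : B = K + 1) (hA : 1 ≤ A)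
    (hAQ : 1 ≤ A * E * Q ^ 6) (hC1 : 31 ^ 4 * B ^ 4 * A ≤ C)
    (hX : C * (s * (w * T) ^ 5) * E < δ ^ 11 * n ^ 2)
    (hv : 1 ≤ v) (hv2 : v * (δ ^ 2 * Q) ≤ 31 * (T * w * B)) (hnv : n ≤ v ^ 2) : False := by
  have hB1 : 1 ≤ B := by rw [hB]; linarith only [hK]
  set X : ℝ := s * (w * T) ^ 5 with hXd
  have hwT : 1 ≤ w * T := one_le_mul_of_one_le_of_one_le hw hT
  have hX0 : 0 < X := by positivity
  have hX4 : (T * w) ^ 4 ≤ X := by
    have : X = (T * w) ^ 4 * (s * (w * T)) := by rw [hXd]; ring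
    rw [this]
    exact le_mul_of_one_le_right (by positivity) (one_le_mul_of_one_le_of_one_le hs hwT)
  have hvG : (v * (δ ^ 2 * Q)) ^ 4 ≤ (31 * (T * w * B)) ^ 4 :=
    pow_le_pow_left₀ (by positivity) hv2 4
  have hn2 : n ^ 2 ≤ v ^ 4 := by
    calc n ^ 2 ≤ (v ^ 2) ^ 2 := pow_le_pow_left₀ (by linarith only [hn]) hnv 2
      _ = v ^ 4 := by ring
  have h1 : δ ^ 11 * n ^ 2 * Q ^ 6 ≤ 31 ^ 4 * B ^ 4 * X := by
    have hδ : δ ^ 11 ≤ δ ^ 8 := pow_le_pow_of_le_one hδ0.le (by linarith only [hδ1]) (by norm_num)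
    have hQ : Q ^ 6 ≤ Q ^ 4 := pow_le_pow_of_le_one hQ0.le hQ1 (by norm_num)
    calc δ ^ 11 * n ^ 2 * Q ^ 6 ≤ δ ^ 8 * v ^ 4 * Q ^ 4 := by
          refine mul_le_mul (mul_le_mul hδ hn2 (by positivity) (by positivity)) hQ
            (by positivity) (by positivity)
      _ = (v * (δ ^ 2 * Q)) ^ 4 := by ring
      _ ≤ (31 * (T * w * B)) ^ 4 := hvG
      _ = 31 ^ 4 * B ^ 4 * (T * w) ^ 4 := by ring
      _ ≤ 31 ^ 4 * B ^ 4 * X := mul_le_mul_of_nonneg_left hX4 (by positivity)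
  have hfin : δ ^ 11 * n ^ 2 ≤ C * X * E := by
    calc δ ^ 11 * n ^ 2 ≤ δ ^ 11 * n ^ 2 * (A * E * Q ^ 6) :=
          le_mul_of_one_le_right (by positivity) hAQ
      _ = (δ ^ 11 * n ^ 2 * Q ^ 6) * (A * E) := by ring
      _ ≤ (31 ^ 4 * B ^ 4 * X) * (A * E) := mul_le_mul_of_nonneg_right h1 (by positivity)
      _ = (31 ^ 4 * B ^ 4 * A) * (X * E) := by ring
      _ ≤ C * (X * E) := mul_le_mul_of_nonneg_right hC1 (by positivity)
      _ = C * X * E := by ring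
  exact absurd hX (not_lt.2 hfin)

theorem t_ARI2 : S_ARI2 := by
  intro n s w T d κ δ hn hnκ hs hw hT hδ0 hδ1 H
  set t : ℕ := 3 * κ + d + 1 with ht
  have ht1 : 1 ≤ t := by omega
  have htR : (1 : ℝ) ≤ t := by exact_mod_cast ht1
  have ht0 : (0 : ℝ) < t := by linarith
  have h24 : (72 * κ + 24 * d + 24 : ℝ) = 24 * t := by rw [ht]; push_cast; ring
  rw [h24]
  set A : ℝ := (24 * (t : ℝ)) ^ (6 * d) with hA
  have hA1 : 1 ≤ A := one_le_pow₀ (by linarith)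
  have hA0 : 0 < A := by linarith
  set C : ℝ := 10 * (24 * (t : ℝ)) ^ (6 * (d + 1)) with hC
  have hCA : C = 10 * 24 ^ 6 * (t : ℝ) ^ 6 * A := by
    rw [hC, hA, mul_add, pow_add]; ring
  have ht6 : (t : ℝ) ^ 4 ≤ (t : ℝ) ^ 6 := pow_le_pow_right₀ htR (by norm_num)
  have ht61 : (1 : ℝ) ≤ (t : ℝ) ^ 6 := one_le_pow₀ htR
  have hB4 : ((t : ℝ) + 1) ^ 4 ≤ 16 * (t : ℝ) ^ 4 := by
    calc ((t : ℝ) + 1) ^ 4 ≤ (2 * (t : ℝ)) ^ 4 :=
          pow_le_pow_left₀ (by positivity) (by linarith) 4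
      _ = 16 * (t : ℝ) ^ 4 := by ring
  have hC0 : 0 < C := by positivity
  have hC1 : 32 * 31 ^ 4 * ((t : ℝ) ^ 2 * ((t : ℝ) + 1) ^ 4) * A ≤ C := by
    rw [hCA]
    refine mul_le_mul_of_nonneg_right ?_ hA0.le
    calc 32 * 31 ^ 4 * ((t : ℝ) ^ 2 * ((t : ℝ) + 1) ^ 4)
        ≤ 32 * 31 ^ 4 * ((t : ℝ) ^ 2 * (16 * (t : ℝ) ^ 4)) := by
          refine mul_le_mul_of_nonneg_left ?_ (by norm_num)
          exact mul_le_mul_of_nonneg_left hB4 (by positivity)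
      _ = 32 * 31 ^ 4 * 16 * (t : ℝ) ^ 6 := by ring
      _ ≤ 10 * 24 ^ 6 * (t : ℝ) ^ 6 :=
          mul_le_mul_of_nonneg_right (by norm_num) (by positivity)
  have hC4 : 31 ^ 4 * ((t : ℝ) + 1) ^ 4 * A ≤ C := by
    rw [hCA]
    refine mul_le_mul_of_nonneg_right ?_ hA0.le
    calc 31 ^ 4 * ((t : ℝ) + 1) ^ 4 ≤ 31 ^ 4 * (16 * (t : ℝ) ^ 4) :=
          mul_le_mul_of_nonneg_left hB4 (by norm_num)
      _ ≤ 31 ^ 4 * (16 * (t : ℝ) ^ 6) := by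
          refine mul_le_mul_of_nonneg_left ?_ (by norm_num)
          exact mul_le_mul_of_nonneg_left ht6 (by norm_num)
      _ = 31 ^ 4 * 16 * (t : ℝ) ^ 6 := by ring
      _ ≤ 10 * 24 ^ 6 * (t : ℝ) ^ 6 :=
          mul_le_mul_of_nonneg_right (by norm_num) (by positivity)
  have hC2 : 16 * 31 ^ 4 * ((t : ℝ) + 1) ^ 4 * A * 1 ≤ C := by
    rw [hCA, mul_one]
    refine mul_le_mul_of_nonneg_right ?_ hA0.le
    calc 16 * 31 ^ 4 * ((t : ℝ) + 1) ^ 4 ≤ 16 * 31 ^ 4 * (16 * (t : ℝ) ^ 4) :=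
          mul_le_mul_of_nonneg_left hB4 (by norm_num)
      _ ≤ 16 * 31 ^ 4 * (16 * (t : ℝ) ^ 6) := by
          refine mul_le_mul_of_nonneg_left ?_ (by norm_num)
          exact mul_le_mul_of_nonneg_left ht6 (by norm_num)
      _ = 16 * 31 ^ 4 * 16 * (t : ℝ) ^ 6 := by ring
      _ ≤ 10 * 24 ^ 6 * (t : ℝ) ^ 6 :=
          mul_le_mul_of_nonneg_right (by norm_num) (by positivity)
  have hC3 : 8 * (1 : ℝ) ≤ C := by
    rw [hCA]
    have h1 : (1 : ℝ) ≤ (t : ℝ) ^ 6 * A := one_le_mul_of_one_le_of_one_le ht61 hA1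
    nlinarith
  have hnR : (1 : ℝ) ≤ n := by exact_mod_cast hn
  have hn0 : (0 : ℝ) < n := by linarith
  have hsR : (1 : ℝ) ≤ s := by exact_mod_cast hs
  have hwR : (1 : ℝ) ≤ w := by exact_mod_cast hw
  have hTR : (1 : ℝ) ≤ T := by exact_mod_cast hT
  set q : ℝ := 1 / (24 * t) with hq
  have hq0 : 0 < q := by positivity
  have hq1 : q ≤ 1 / 3 := by
    rw [hq]
    exact one_div_le_one_div_of_le (by norm_num) (by linarith)
  set Q : ℝ := q ^ d with hQ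
  have hQ0 : 0 < Q := by positivity
  have hQ1 : Q ≤ 1 := pow_le_one₀ hq0.le (by linarith)
  have hAQ : 1 ≤ A * 1 * Q ^ 6 := by
    refine le_of_eq ?_
    rw [hQ, hq, hA, ← pow_mul, mul_comm d 6, one_div_pow, mul_one]
    field_simp
  set η : ℝ := et d t (2 ^ κ) q with hη
  have hη0 : 0 ≤ η := by
    rw [hη]; unfold et; positivity
  have hηD : (n : ℝ) ^ 2 * 1 * η ≤ 1 := by
    have h1 : 12 * (t : ℝ) * q = 1 / 2 := by rw [hq]; field_simp; norm_num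
    have h2 : η = d * (2 : ℝ) ^ κ * (1 / 2) ^ (t + 1) := by
      rw [hη]; unfold et; rw [h1]; push_cast; rfl
    have h3 : (n : ℝ) ^ 2 ≤ (2 : ℝ) ^ (2 * κ) := by
      have : (n : ℝ) ≤ (2 : ℝ) ^ κ := by exact_mod_cast hnκ
      calc (n : ℝ) ^ 2 ≤ ((2 : ℝ) ^ κ) ^ 2 := pow_le_pow_left₀ hn0.le this 2
        _ = (2 : ℝ) ^ (2 * κ) := by rw [← pow_mul, mul_comm]
    have h4 : (d : ℝ) ≤ (2 : ℝ) ^ d := by exact_mod_cast (Nat.lt_two_pow_self (n := d)).le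
    rw [h2, mul_one]
    calc (n : ℝ) ^ 2 * (d * (2 : ℝ) ^ κ * (1 / 2) ^ (t + 1))
        ≤ (2 : ℝ) ^ (2 * κ) * ((2 : ℝ) ^ d * (2 : ℝ) ^ κ * (1 / 2) ^ (t + 1)) := by
          refine mul_le_mul h3 ?_ (by positivity) (by positivity)
          refine mul_le_mul_of_nonneg_right ?_ (by positivity)
          exact mul_le_mul_of_nonneg_right h4 (by positivity)
      _ = (2 : ℝ) ^ (3 * κ + d) * (1 / 2) ^ (3 * κ + d) * (1 / 4) := by
          rw [ht]; ring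
      _ = 1 / 4 := by rw [← mul_pow]; norm_num
      _ ≤ 1 := by norm_num
  by_contra hcon
  rw [not_le] at hcon
  have hX : C * ((s : ℝ) * (w * T) ^ 5) * 1 < δ ^ 11 * (n : ℝ) ^ 2 := by
    calc C * ((s : ℝ) * (w * T) ^ 5) * 1 = C * s * (w * T) ^ 5 := by ring
      _ < δ ^ 11 * (n : ℝ) ^ 2 := hcon
  set K : ℝ := (t : ℝ) with hK
  have hK0 : 0 ≤ K := by linarith
  have hB1 : (1 : ℝ) ≤ K + 1 := by linarith
  have hG0 : 0 < δ ^ 2 * Q := by positivity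
  have hG1 : δ ^ 2 * Q ≤ 1 := mul_le_one₀ (pow_le_one₀ hδ0.le (by linarith)) hQ0.le hQ1
  set F : ℝ := T * w * (K + 1) / (δ ^ 2 * Q) with hF
  have hTw : (1 : ℝ) ≤ T * w * (K + 1) :=
    one_le_mul_of_one_le_of_one_le (one_le_mul_of_one_le_of_one_le hTR hwR) hB1
  have hF1 : 1 ≤ F := by
    rw [hF, le_div_iff₀ hG0]; linarith
  have hFG : F * (δ ^ 2 * Q) = T * w * (K + 1) := by
    rw [hF]; field_simp
  set v : ℕ := ⌈30 * F⌉₊ with hv
  have hvl : 30 * F ≤ v := Nat.le_ceil _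
  have hvu : (v : ℝ) ≤ 31 * F := by
    have := (Nat.ceil_lt_add_one (by positivity : 0 ≤ 30 * F)).le
    linarith
  have hv1R : (1 : ℝ) ≤ v := by linarith
  have hv1 : 1 ≤ v := by exact_mod_cast hv1R
  have hv0 : (0 : ℝ) < v := by linarith
  have c1 : 30 * ((T : ℝ) * w * (K + 1)) ≤ v * (δ ^ 2 * Q) := by
    rw [← hFG]
    exact le_trans (le_of_eq (by ring)) (mul_le_mul_of_nonneg_right hvl hG0.le)
  have c2 : (v : ℝ) * (δ ^ 2 * Q) ≤ 31 * (T * w * (K + 1)) := by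
    rw [← hFG]
    exact le_trans (mul_le_mul_of_nonneg_right hvu hG0.le) (le_of_eq (by ring))
  by_cases hu : n < v ^ 2
  · have hnv : (n : ℝ) ≤ (v : ℝ) ^ 2 := by exact_mod_cast hu.le
    exact core4 n 1 Q δ s w T (K + 1) K A C v hnR le_rfl hQ0 hQ1 hδ0 hδ1 hsR hwR hTR hK0 rfl hA1
      hAQ hC4 hX hv1R c2 hnv
  · rw [not_lt] at hu
    have hupos : 0 < v ^ 2 := Nat.pow_pos hv1
    set k : ℕ := n / v ^ 2 with hk
    have hk1 : 1 ≤ k := (Nat.one_le_div_iff hupos).2 hu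
    have hku : k * v ^ 2 ≤ n := Nat.div_mul_le_self _ _
    have hkn : n ≤ 2 * k * v ^ 2 := by
      have h1 : n < v ^ 2 * (n / v ^ 2 + 1) := Nat.lt_mul_div_succ n hupos
      have h2 : v ^ 2 * (n / v ^ 2 + 1) ≤ v ^ 2 * (2 * k) :=
        Nat.mul_le_mul_left _ (by rw [← hk]; omega)
      calc n ≤ v ^ 2 * (2 * k) := le_trans h1.le h2
        _ = 2 * k * v ^ 2 := by ring
    have hk0 : (0 : ℝ) < k := by exact_mod_cast hk1
    have hy0 : 0 < δ / v := by positivity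
    have hy1 : δ / v ≤ 1 := by
      rw [div_le_one hv0]; linarith
    have hyQ0 : 0 < δ / v * Q := by positivity
    have hyQ1 : δ / v * Q ≤ 1 := mul_le_one₀ hy1 hQ0.le hQ1
    set V : ℕ := ⌈4 * (K + 1) / (δ / v * Q)⌉₊ with hV
    have hVl : 4 * (K + 1) ≤ V * (δ / v * Q) := by
      have := Nat.le_ceil (4 * (K + 1) / (δ / v * Q))
      rwa [div_le_iff₀ hyQ0] at this
    have hVu : V * (δ / v * Q) ≤ 5 * (K + 1) := by
      have h1 := (Nat.ceil_lt_add_one (by positivity : 0 ≤ 4 * (K + 1) / (δ / v * Q))).le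
      have h2 := mul_le_mul_of_nonneg_right h1 hyQ0.le
      have h3 : (4 * (K + 1) / (δ / v * Q) + 1) * (δ / v * Q) = 4 * (K + 1) + δ / v * Q := by
        field_simp
      rw [h3] at h2
      linarith
    have hH := H k (v ^ 2) V t q (δ / v) hk1 hupos hku ht1 hq0 hq1 hy0 hy1 hVl
    have hcore := core3 n 1 Q δ η s w T (K + 1) K A 1 C v k hnR le_rfl hQ0 hδ0 hδ1 hη0 hηD hsR
      hwR hTR hK0 rfl hA1 hAQ zero_le_one hC1 hC2 hC3 hC0 hX.le hv1R c1 c2 hk0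
      (by exact_mod_cast hkn) V hVu
    push_cast at hH
    exact absurd hH (not_le.2 hcore)

end Pool.Agent.J4H17.CDC
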