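import Mathlib

/-!
# Arithmetic for set intersection queries: the inequality of the real parameters
-/

set_option autoImplicit false

namespace Pool.Agent.J4H17.CDC

theorem core5 (N w m T δ t Q A y U u k V η s : ℝ) (hN : 2 ≤ N) (hw : 1 ≤ w) (hT : 1 ≤ T)
    (hTm : T ≤ m) (hδ0 : 0 < δ) (hδ1 : δ ≤ 1 / 2) (ht : 1 ≤ t) (hQ0 : 0 < Q) (hQ1 : Q ≤ 1)
    (hA0 : 0 < A) (hA : A * (δ ^ 2 * Q) = w * m * (t + 1)) (hAN : 640 * A ≤ N)
    (hy : y = T / (80 * A)) (hU : U = 6400 * δ * A ^ 2 / T) (hu0 : 0 < u) (huU : u ≤ U)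
    (hUu : U ≤ 2 * u) (hk0 : 0 < k) (hk1 : k * (8 * (u * y)) ≤ N * δ)
    (hk2 : N ≤ 1280 * A * k) (hV : V * (y * Q) ≤ 5 * (t + 1)) (hη0 : 0 ≤ η)
    (hη : η * N ^ 4 ≤ 1 / 4) (hs : 1 ≤ s)
    (H : (2 * δ - (y / 2) ^ 2 - 2 * (k * u * y) / N - u * (y / 2) ^ 2 / T) * (k ^ 2 * u) ≤
      k ^ 2 * u * (2 * (s * w) * η) + k ^ 2 * (2 * (m * w * V)) +
      (s * w) * (2 * t ^ 2 + (2 * (k * u)) ^ 2 * η) / (y * Q) ^ 2) :
    δ ^ 6 * N ^ 2 * T * Q ^ 4 ≤ 500 * 24 ^ 4 * t ^ 4 * (s * w ^ 3 * m ^ 2) := by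
  have hT0 : 0 < T := by linarith only [hT]
  have hm0 : 0 < m := by linarith only [hT0, hTm]
  have hm1 : 1 ≤ m := by linarith only [hT, hTm]
  have hw0 : 0 < w := by linarith only [hw]
  have hN0 : 0 < N := by linarith only [hN]
  have ht0 : 0 < t := by linarith only [ht]
  have hs0 : 0 < s := by linarith only [hs]
  have hy0 : 0 < y := by rw [hy]; positivity
  have hyA : y * (80 * A) = T := by rw [hy]; field_simp
  have hUy : U * y = 80 * δ * A := by rw [hU, hy]; field_simp; norm_num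
  have hUyy : U * y ^ 2 = δ * T := by
    calc U * y ^ 2 = (U * y) * y := by ring
      _ = δ * (y * (80 * A)) := by rw [hUy]; ring
      _ = δ * T := by rw [hyA]
  have hd2 : 0 < δ ^ 2 * Q := by positivity
  -- T ≤ A δ² Q
  have hTA : T ≤ A * (δ ^ 2 * Q) := by
    rw [hA]
    calc T ≤ m := hTm
      _ = 1 * m * 1 := by ring
      _ ≤ w * m * (t + 1) := by
        refine mul_le_mul (mul_le_mul_of_nonneg_right hw hm0.le) (by linarith only [ht0])
          zero_le_one (by positivity)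
  have hyδ : 80 * y ≤ δ ^ 2 := by
    refine le_of_mul_le_mul_right (a := A) ?_ hA0
    calc 80 * y * A = y * (80 * A) := by ring
      _ = T := hyA
      _ ≤ A * (δ ^ 2 * Q) := hTA
      _ ≤ A * (δ ^ 2 * 1) := by
        refine mul_le_mul_of_nonneg_left ?_ hA0.le
        exact mul_le_mul_of_nonneg_left hQ1 (by positivity)
      _ = δ ^ 2 * A := by ring
  have hδδ : δ ^ 2 ≤ δ / 2 := by
    have := mul_le_mul_of_nonneg_left hδ1 hδ0.le
    calc δ ^ 2 = δ * δ := by ring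
      _ ≤ δ * (1 / 2) := this
      _ = δ / 2 := by ring
  have hy1 : y ≤ 1 := by linarith only [hyδ, hδδ, hδ1]
  have L1 : (y / 2) ^ 2 ≤ δ / 8 := by
    have : y * y ≤ y * 1 := mul_le_mul_of_nonneg_left hy1 hy0.le
    have e : (y / 2) ^ 2 = y * y / 4 := by ring
    rw [e]
    linarith only [this, hyδ, hδδ, hδ0]
  have L2 : 2 * (k * u * y) / N ≤ δ / 4 := by
    rw [div_le_iff₀ hN0]
    have e : k * (8 * (u * y)) = 8 * (k * u * y) := by ring
    rw [e] at hk1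
    linarith only [hk1]
  have L3 : u * (y / 2) ^ 2 / T ≤ δ / 4 := by
    rw [div_le_iff₀ hT0]
    have h1 : u * y ^ 2 ≤ U * y ^ 2 := mul_le_mul_of_nonneg_right huU (by positivity)
    rw [hUyy] at h1
    have e : u * (y / 2) ^ 2 = u * y ^ 2 / 4 := by ring
    rw [e]
    linarith only [h1]
  have hku0 : 0 < k ^ 2 * u := by positivity
  -- second term
  have R2 : k ^ 2 * (2 * (m * w * V)) ≤ δ / 4 * (k ^ 2 * u) := by
    have h1 : 2 * (m * w * V) ≤ δ / 4 * u := by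
      refine le_of_mul_le_mul_right (a := y * Q) ?_ (by positivity)
      have h2 : 40 * δ * A ≤ u * y := by
        have := mul_le_mul_of_nonneg_right hUu hy0.le
        rw [hUy] at this
        linarith only [this]
      calc 2 * (m * w * V) * (y * Q) = 2 * (m * w) * (V * (y * Q)) := by ring
        _ ≤ 2 * (m * w) * (5 * (t + 1)) := mul_le_mul_of_nonneg_left hV (by positivity)
        _ = 10 * (w * m * (t + 1)) := by ring
        _ = 10 * (A * (δ ^ 2 * Q)) := by rw [hA]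
        _ = δ * Q / 4 * (40 * δ * A) := by ring
        _ ≤ δ * Q / 4 * (u * y) := mul_le_mul_of_nonneg_left h2 (by positivity)
        _ = δ / 4 * u * (y * Q) := by ring
    calc k ^ 2 * (2 * (m * w * V)) ≤ k ^ 2 * (δ / 4 * u) :=
          mul_le_mul_of_nonneg_left h1 (by positivity)
      _ = δ / 4 * (k ^ 2 * u) := by ring
  by_cases hcase : δ / 4 ≤ 2 * (s * w) * η
  · -- many cells
    have h1 : δ / 4 * N ^ 4 ≤ (2 * (s * w)) * (1 / 4) := by
      calc δ / 4 * N ^ 4 ≤ 2 * (s * w) * η * N ^ 4 :=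
            mul_le_mul_of_nonneg_right hcase (by positivity)
        _ = (2 * (s * w)) * (η * N ^ 4) := by ring
        _ ≤ (2 * (s * w)) * (1 / 4) := mul_le_mul_of_nonneg_left hη (by positivity)
    have h2 : δ * N ^ 2 ≤ s * w := by
      have hN2 : 2 ≤ N ^ 2 := by
        calc (2 : ℝ) ≤ 2 ^ 2 := by norm_num
          _ ≤ N ^ 2 := pow_le_pow_left₀ (by norm_num) hN 2
      have h3 : δ * N ^ 2 * 2 ≤ δ * N ^ 2 * N ^ 2 := mul_le_mul_of_nonneg_left hN2 (by positivity)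
      have e : δ * N ^ 2 * N ^ 2 = δ * N ^ 4 := by ring
      rw [e] at h3
      linarith only [h1, h3]
    have hδ6 : δ ^ 6 ≤ δ := by
      have : δ ^ 6 ≤ δ ^ 1 := pow_le_pow_of_le_one hδ0.le (by linarith only [hδ1]) (by norm_num)
      simpa using this
    have hQ4 : Q ^ 4 ≤ 1 := pow_le_one₀ hQ0.le hQ1
    have ht4 : 1 ≤ t ^ 4 := one_le_pow₀ ht
    have hTm2 : T ≤ m ^ 2 := by
      calc T ≤ m := hTm
        _ = m * 1 := by ring
        _ ≤ m * m := mul_le_mul_of_nonneg_left hm1 hm0.le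
        _ = m ^ 2 := by ring
    have hw2 : 1 ≤ w ^ 2 := one_le_pow₀ hw
    calc δ ^ 6 * N ^ 2 * T * Q ^ 4 ≤ δ * N ^ 2 * m ^ 2 * 1 := by
          refine mul_le_mul (mul_le_mul (mul_le_mul_of_nonneg_right hδ6 (by positivity)) hTm2
            (by positivity) (by positivity)) hQ4 (by positivity) (by positivity)
      _ ≤ (s * w) * m ^ 2 * 1 := by
          refine mul_le_mul_of_nonneg_right ?_ zero_le_one
          exact mul_le_mul_of_nonneg_right h2 (by positivity)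
      _ ≤ (s * w) * m ^ 2 * (500 * 24 ^ 4 * t ^ 4 * w ^ 2) := by
          refine mul_le_mul_of_nonneg_left ?_ (by positivity)
          have h5 : 1 ≤ t ^ 4 * w ^ 2 := one_le_mul_of_one_le_of_one_le ht4 hw2
          have h6 : (500 : ℝ) * 24 ^ 4 * t ^ 4 * w ^ 2 = 500 * 24 ^ 4 * (t ^ 4 * w ^ 2) := by ring
          rw [h6]
          linarith only [h5]
      _ = 500 * 24 ^ 4 * t ^ 4 * (s * w ^ 3 * m ^ 2) := by ring
  · rw [not_le] at hcase
    have R1 : k ^ 2 * u * (2 * (s * w) * η) ≤ δ / 4 * (k ^ 2 * u) := by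
      calc k ^ 2 * u * (2 * (s * w) * η) ≤ k ^ 2 * u * (δ / 4) :=
            mul_le_mul_of_nonneg_left hcase.le hku0.le
        _ = δ / 4 * (k ^ 2 * u) := by ring
    have hL : 11 / 8 * δ * (k ^ 2 * u) ≤
        (2 * δ - (y / 2) ^ 2 - 2 * (k * u * y) / N - u * (y / 2) ^ 2 / T) * (k ^ 2 * u) := by
      refine mul_le_mul_of_nonneg_right ?_ hku0.le
      linarith only [L1, L2, L3]
    -- third term
    have hyN : 8 ≤ y * N := by
      have h1 : y * (80 * A) * 8 ≤ y * N := by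
        have : 640 * A * y ≤ N * y := mul_le_mul_of_nonneg_right hAN hy0.le
        calc y * (80 * A) * 8 = 640 * A * y := by ring
          _ ≤ N * y := this
          _ = y * N := by ring
      rw [hyA] at h1
      linarith only [h1, hT]
    have hkuN : k * u ≤ N ^ 2 / 128 := by
      have h1 : (k * u) * 8 ≤ (k * u) * (y * N) := mul_le_mul_of_nonneg_left hyN (by positivity)
      have h2 : (k * u) * (y * N) * 8 ≤ N * δ * N := by
        calc (k * u) * (y * N) * 8 = k * (8 * (u * y)) * N := by ring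
          _ ≤ N * δ * N := mul_le_mul_of_nonneg_right hk1 hN0.le
      have h3 : N * δ * N ≤ N ^ 2 / 2 := by
        calc N * δ * N = N ^ 2 * δ := by ring
          _ ≤ N ^ 2 * (1 / 2) := mul_le_mul_of_nonneg_left hδ1 (by positivity)
          _ = N ^ 2 / 2 := by ring
      linarith only [h1, h2, h3]
    have hsmall : (2 * (k * u)) ^ 2 * η ≤ 2 * t ^ 2 := by
      have h1 : (2 * (k * u)) ^ 2 ≤ N ^ 4 := by
        calc (2 * (k * u)) ^ 2 ≤ (2 * (N ^ 2 / 128)) ^ 2 :=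
              pow_le_pow_left₀ (by positivity) (by linarith only [hkuN]) 2
          _ = N ^ 4 / 4096 := by ring
          _ ≤ N ^ 4 := div_le_self (by positivity) (by norm_num)
      have h2 : (2 * (k * u)) ^ 2 * η ≤ N ^ 4 * η := mul_le_mul_of_nonneg_right h1 hη0
      have h3 : 1 ≤ t ^ 2 := one_le_pow₀ ht
      have e : N ^ 4 * η = η * N ^ 4 := by ring
      rw [e] at h2
      linarith only [h2, h3, hη]
    set W : ℝ := (s * w) * (2 * t ^ 2 + (2 * (k * u)) ^ 2 * η) / (y * Q) ^ 2 with hW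
    have h7 : 7 / 8 * δ * (k ^ 2 * u) ≤ W := by linarith only [hL, H, R1, R2]
    have h8 : W * (y * Q) ^ 2 ≤ 4 * t ^ 2 * (s * w) := by
      have e : W * (y * Q) ^ 2 = (s * w) * (2 * t ^ 2 + (2 * (k * u)) ^ 2 * η) := by
        rw [hW]; field_simp
      rw [e]
      calc (s * w) * (2 * t ^ 2 + (2 * (k * u)) ^ 2 * η) ≤ (s * w) * (2 * t ^ 2 + 2 * t ^ 2) :=
            mul_le_mul_of_nonneg_left (by linarith only [hsmall]) (by positivity)
        _ = 4 * t ^ 2 * (s * w) := by ring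
    have h9 : 7 / 8 * δ * (k ^ 2 * u) * (y * Q) ^ 2 ≤ 4 * t ^ 2 * (s * w) :=
      le_trans (mul_le_mul_of_nonneg_right h7 (by positivity)) h8
    have huy : δ * T / 2 ≤ u * y ^ 2 := by
      have := mul_le_mul_of_nonneg_right hUu (by positivity : 0 ≤ y ^ 2)
      rw [hUyy] at this
      linarith only [this]
    have hk3 : N ^ 2 ≤ 1280 ^ 2 * A ^ 2 * k ^ 2 := by
      calc N ^ 2 ≤ (1280 * A * k) ^ 2 := pow_le_pow_left₀ hN0.le hk2 2
        _ = 1280 ^ 2 * A ^ 2 * k ^ 2 := by ring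
    have h10 : 7 / 16 * δ ^ 2 * T * Q ^ 2 * N ^ 2 ≤ 1280 ^ 2 * A ^ 2 * (4 * t ^ 2 * (s * w)) := by
      calc 7 / 16 * δ ^ 2 * T * Q ^ 2 * N ^ 2
          ≤ 7 / 16 * δ ^ 2 * T * Q ^ 2 * (1280 ^ 2 * A ^ 2 * k ^ 2) :=
            mul_le_mul_of_nonneg_left hk3 (by positivity)
        _ = 1280 ^ 2 * A ^ 2 * (7 / 8 * δ * k ^ 2 * Q ^ 2) * (δ * T / 2) := by ring
        _ ≤ 1280 ^ 2 * A ^ 2 * (7 / 8 * δ * k ^ 2 * Q ^ 2) * (u * y ^ 2) :=
            mul_le_mul_of_nonneg_left huy (by positivity)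
        _ = 1280 ^ 2 * A ^ 2 * (7 / 8 * δ * (k ^ 2 * u) * (y * Q) ^ 2) := by ring
        _ ≤ 1280 ^ 2 * A ^ 2 * (4 * t ^ 2 * (s * w)) :=
            mul_le_mul_of_nonneg_left h9 (by positivity)
    have hA2 : A ^ 2 * (δ ^ 2 * Q) ^ 2 ≤ 4 * t ^ 2 * (w * m) ^ 2 := by
      calc A ^ 2 * (δ ^ 2 * Q) ^ 2 = (A * (δ ^ 2 * Q)) ^ 2 := by ring
        _ = (w * m * (t + 1)) ^ 2 := by rw [hA]
        _ ≤ (w * m * (2 * t)) ^ 2 := by
          refine pow_le_pow_left₀ (by positivity) ?_ 2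
          exact mul_le_mul_of_nonneg_left (by linarith only [ht]) (by positivity)
        _ = 4 * t ^ 2 * (w * m) ^ 2 := by ring
    have h11 : 7 / 16 * (δ ^ 6 * N ^ 2 * T * Q ^ 4) ≤
        1280 ^ 2 * 16 * t ^ 4 * (s * w ^ 3 * m ^ 2) := by
      calc 7 / 16 * (δ ^ 6 * N ^ 2 * T * Q ^ 4)
          = 7 / 16 * δ ^ 2 * T * Q ^ 2 * N ^ 2 * (δ ^ 2 * Q) ^ 2 := by ring
        _ ≤ 1280 ^ 2 * A ^ 2 * (4 * t ^ 2 * (s * w)) * (δ ^ 2 * Q) ^ 2 :=
            mul_le_mul_of_nonneg_right h10 (by positivity)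
        _ = 1280 ^ 2 * (4 * t ^ 2 * (s * w)) * (A ^ 2 * (δ ^ 2 * Q) ^ 2) := by ring
        _ ≤ 1280 ^ 2 * (4 * t ^ 2 * (s * w)) * (4 * t ^ 2 * (w * m) ^ 2) :=
            mul_le_mul_of_nonneg_left hA2 (by positivity)
        _ = 1280 ^ 2 * 16 * t ^ 4 * (s * w ^ 3 * m ^ 2) := by ring
    have hZ : 0 ≤ t ^ 4 * (s * w ^ 3 * m ^ 2) := by positivity
    have e1 : (1280 : ℝ) ^ 2 * 16 * t ^ 4 * (s * w ^ 3 * m ^ 2) =
      1280 ^ 2 * 16 * (t ^ 4 * (s * w ^ 3 * m ^ 2)) := by ring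
    have e2 : (500 : ℝ) * 24 ^ 4 * t ^ 4 * (s * w ^ 3 * m ^ 2) =
      500 * 24 ^ 4 * (t ^ 4 * (s * w ^ 3 * m ^ 2)) := by ring
    rw [e1] at h11
    rw [e2]
    linarith only [h11, hZ]

end Pool.Agent.J4H17.CDC
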