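import Pool.Agent.J4H85.CD.Stm3
import Pool.Agent.J4H17.CDC.Ari3Core

/-!
# Arithmetic for set intersection queries with constant-depth memory (piece ARI3)
-/

set_option autoImplicit false

namespace Pool.Agent.J4H17.CDC

open Pool.Agent.J4H85.CD H568R2

theorem t_ARI3 : S_ARI3 := by
  intro N w T m d κ δ hN hNκ hw hT hTm hδ0 hδ1 hyp
  set t : ℕ := 5 * κ + d + 1 with ht
  have ht1 : 1 ≤ t := by omega
  have htR : (1 : ℝ) ≤ t := by exact_mod_cast ht1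
  have ht0 : (0 : ℝ) < t := by linarith
  have h24 : (120 * κ + 24 * d + 24 : ℝ) = 24 * t := by rw [ht]; push_cast; ring
  rw [h24] at hyp
  rw [h24]
  have hNR : (2 : ℝ) ≤ N := by exact_mod_cast hN
  have hN0 : (0 : ℝ) < N := by linarith
  have hwR : (1 : ℝ) ≤ w := by exact_mod_cast hw
  have hTR : (1 : ℝ) ≤ T := by exact_mod_cast hT
  have hT0 : (0 : ℝ) < T := by linarith
  have hTmR : (T : ℝ) ≤ m := by exact_mod_cast hTm
  have hmR : (1 : ℝ) ≤ m := by linarith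
  have hw0 : (0 : ℝ) < w := by linarith
  have hm0 : (0 : ℝ) < m := by linarith
  set q : ℝ := 1 / (24 * t) with hq
  have hq0 : 0 < q := by positivity
  have hq1 : q ≤ 1 / 3 := by
    rw [hq]
    exact one_div_le_one_div_of_le (by norm_num) (by linarith)
  set Q : ℝ := q ^ d with hQ
  have hQ0 : 0 < Q := by positivity
  have hQ1 : Q ≤ 1 := pow_le_one₀ hq0.le (by linarith)
  have hRQ : (24 * (t : ℝ)) ^ d * Q = 1 := by
    rw [hQ, hq, ← mul_pow]
    have : 24 * (t : ℝ) * (1 / (24 * t)) = 1 := by field_simp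
    rw [this, one_pow]
  have hd2 : 0 < δ ^ 2 * Q := by positivity
  set A : ℝ := w * m * (t + 1) / (δ ^ 2 * Q) with hA
  have hA0 : 0 < A := by positivity
  have hAe : A * (δ ^ 2 * Q) = w * m * (t + 1) := by rw [hA]; field_simp
  have hAN : 640 * A ≤ N := by
    refine le_of_mul_le_mul_right (a := δ ^ 2 * Q) ?_ hd2
    have h1 : 640 * (24 * (t : ℝ)) ^ (d + 1) * (w * m) * Q ≤ δ ^ 2 * N * Q :=
      mul_le_mul_of_nonneg_right hyp hQ0.le
    have h2 : 640 * (24 * (t : ℝ)) ^ (d + 1) * (w * m) * Q = 640 * (24 * t) * (w * m) := by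
      calc 640 * (24 * (t : ℝ)) ^ (d + 1) * (w * m) * Q
          = 640 * (24 * t) * (w * m) * ((24 * (t : ℝ)) ^ d * Q) := by ring
        _ = 640 * (24 * t) * (w * m) := by rw [hRQ, mul_one]
    rw [h2] at h1
    calc 640 * A * (δ ^ 2 * Q) = 640 * (A * (δ ^ 2 * Q)) := by ring
      _ = 640 * ((w : ℝ) * m * (t + 1)) := by rw [hAe]
      _ = 640 * ((t : ℝ) + 1) * (w * m) := by ring
      _ ≤ 640 * (24 * (t : ℝ)) * (w * m) := by
        refine mul_le_mul_of_nonneg_right ?_ (by positivity)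
        linarith
      _ ≤ δ ^ 2 * N * Q := h1
      _ = N * (δ ^ 2 * Q) := by ring
  set y : ℝ := T / (80 * A) with hy
  have hy0 : 0 < y := by positivity
  have hδ2 : δ ^ 2 ≤ δ := by
    have := pow_le_pow_of_le_one hδ0.le (by linarith : δ ≤ 1) (by norm_num : 1 ≤ 2)
    simpa using this
  have hTA2 : (T : ℝ) ≤ A * δ ^ 2 := by
    have h1 : (T : ℝ) ≤ A * (δ ^ 2 * Q) := by
      rw [hAe]
      calc (T : ℝ) ≤ m := hTmR
        _ = 1 * m * 1 := by ring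
        _ ≤ w * m * (t + 1) := by
          refine mul_le_mul (mul_le_mul_of_nonneg_right hwR hm0.le) (by linarith)
            zero_le_one (by positivity)
    calc (T : ℝ) ≤ A * (δ ^ 2 * Q) := h1
      _ ≤ A * (δ ^ 2 * 1) := by
        refine mul_le_mul_of_nonneg_left ?_ hA0.le
        exact mul_le_mul_of_nonneg_left hQ1 (by positivity)
      _ = A * δ ^ 2 := by ring
  have hTAδ : (T : ℝ) ≤ A * δ := le_trans hTA2 (mul_le_mul_of_nonneg_left hδ2 hA0.le)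
  have hTA : (T : ℝ) ≤ A := by
    calc (T : ℝ) ≤ A * δ := hTAδ
      _ ≤ A * 1 := mul_le_mul_of_nonneg_left (by linarith) hA0.le
      _ = A := mul_one A
  have hA1 : 1 ≤ A := by linarith
  have hy1 : y ≤ 1 := by
    rw [hy, div_le_one (by positivity)]
    linarith
  set U : ℝ := 6400 * δ * A ^ 2 / T with hU
  have hU1 : 1 ≤ U := by
    rw [hU, le_div_iff₀ hT0]
    have h1 : (T : ℝ) * 1 ≤ (A * δ) * A := mul_le_mul hTAδ hA1 zero_le_one (by positivity)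
    calc 1 * (T : ℝ) = T * 1 := by ring
      _ ≤ (A * δ) * A := h1
      _ ≤ 6400 * ((A * δ) * A) := by
        have : 0 ≤ (A * δ) * A := by positivity
        linarith
      _ = 6400 * δ * A ^ 2 := by ring
  have hUy : U * y = 80 * δ * A := by rw [hU, hy]; field_simp; norm_num
  set u : ℕ := ⌊U⌋₊ with hu
  have hu1 : 1 ≤ u := Nat.le_floor (by simpa using hU1)
  have hu1R : (1 : ℝ) ≤ u := by exact_mod_cast hu1
  have hu0 : (0 : ℝ) < u := by linarith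
  have huU : (u : ℝ) ≤ U := Nat.floor_le (by linarith)
  have hUu : U ≤ 2 * u := by
    have := (Nat.lt_floor_add_one U).le
    rw [← hu] at this
    linarith
  set K0 : ℝ := N * δ / (8 * (u * y)) with hK0
  have huy0 : 0 < 8 * (u * y) := by positivity
  have h8uy : 8 * (u * y) ≤ 640 * δ * A := by
    have h1 : u * y ≤ U * y := mul_le_mul_of_nonneg_right huU hy0.le
    rw [hUy] at h1
    linarith
  have hK1 : 1 ≤ K0 := by
    rw [hK0, le_div_iff₀ huy0, one_mul]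
    calc 8 * (u * y) ≤ 640 * δ * A := h8uy
      _ = (640 * A) * δ := by ring
      _ ≤ N * δ := mul_le_mul_of_nonneg_right hAN hδ0.le
  set k : ℕ := ⌊K0⌋₊ with hk
  have hk1 : 1 ≤ k := Nat.le_floor (by simpa using hK1)
  have hk1R : (1 : ℝ) ≤ k := by exact_mod_cast hk1
  have hk0 : (0 : ℝ) < k := by linarith
  have hkK : (k : ℝ) ≤ K0 := Nat.floor_le (by linarith)
  have hkc1 : (k : ℝ) * (8 * (u * y)) ≤ N * δ := by
    rw [hK0, le_div_iff₀ huy0] at hkK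
    exact hkK
  have hkc2 : (N : ℝ) ≤ 1280 * A * k := by
    have h1 := (Nat.lt_floor_add_one K0).le
    rw [← hk] at h1
    have h2 : K0 ≤ 2 * k := by linarith
    rw [hK0, div_le_iff₀ huy0] at h2
    have h3 : 2 * (k : ℝ) * (8 * (u * y)) ≤ 2 * k * (640 * δ * A) :=
      mul_le_mul_of_nonneg_left h8uy (by positivity)
    refine le_of_mul_le_mul_right (a := δ) ?_ hδ0
    calc (N : ℝ) * δ ≤ 2 * k * (8 * (u * y)) := h2
      _ ≤ 2 * k * (640 * δ * A) := h3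
      _ = 1280 * A * k * δ := by ring
  have hyQ0 : 0 < y * Q := by positivity
  have hyQ1 : y * Q ≤ 1 := mul_le_one₀ hy1 hQ0.le hQ1
  set V : ℕ := ⌈4 * ((t : ℝ) + 1) / (y * Q)⌉₊ with hV
  have hVl : 4 * ((t : ℝ) + 1) ≤ V * (y * Q) := by
    have := Nat.le_ceil (4 * ((t : ℝ) + 1) / (y * Q))
    rwa [div_le_iff₀ hyQ0] at this
  have hVu : V * (y * Q) ≤ 5 * ((t : ℝ) + 1) := by
    have h1 := (Nat.ceil_lt_add_one (by positivity : 0 ≤ 4 * ((t : ℝ) + 1) / (y * Q))).le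
    have h2 := mul_le_mul_of_nonneg_right h1 hyQ0.le
    have h3 : (4 * ((t : ℝ) + 1) / (y * Q) + 1) * (y * Q) = 4 * (t + 1) + y * Q := by
      field_simp
    rw [h3] at h2
    linarith
  set η : ℝ := et d t (2 ^ κ) q with hη
  have hη0 : 0 ≤ η := by
    rw [hη]; unfold et; positivity
  have hηN : η * (N : ℝ) ^ 4 ≤ 1 / 4 := by
    have h1 : 12 * (t : ℝ) * q = 1 / 2 := by rw [hq]; field_simp; norm_num
    have h2 : η = d * (2 : ℝ) ^ κ * (1 / 2) ^ (t + 1) := by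
      rw [hη]; unfold et; rw [h1]; push_cast; rfl
    have h3 : (N : ℝ) ^ 4 ≤ (2 : ℝ) ^ (4 * κ) := by
      have : (N : ℝ) ≤ (2 : ℝ) ^ κ := by exact_mod_cast hNκ
      calc (N : ℝ) ^ 4 ≤ ((2 : ℝ) ^ κ) ^ 4 := pow_le_pow_left₀ hN0.le this 4
        _ = (2 : ℝ) ^ (4 * κ) := by rw [← pow_mul, mul_comm]
    have h4 : (d : ℝ) ≤ (2 : ℝ) ^ d := by exact_mod_cast (Nat.lt_two_pow_self (n := d)).le
    rw [h2]
    calc (d * (2 : ℝ) ^ κ * (1 / 2) ^ (t + 1)) * (N : ℝ) ^ 4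
        ≤ ((2 : ℝ) ^ d * (2 : ℝ) ^ κ * (1 / 2) ^ (t + 1)) * (2 : ℝ) ^ (4 * κ) := by
          refine mul_le_mul ?_ h3 (by positivity) (by positivity)
          refine mul_le_mul_of_nonneg_right ?_ (by positivity)
          exact mul_le_mul_of_nonneg_right h4 (by positivity)
      _ = (2 : ℝ) ^ (5 * κ + d) * (1 / 2) ^ (5 * κ + d) * (1 / 4) := by
          have e1 : (2 : ℝ) ^ (5 * κ + d) = 2 ^ d * 2 ^ κ * 2 ^ (4 * κ) := by
            rw [← pow_add, ← pow_add]; congr 1; ring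
          have e2 : (1 / 2 : ℝ) ^ (t + 1) = (1 / 2) ^ (5 * κ + d) * (1 / 4) := by
            rw [ht, show 5 * κ + d + 1 + 1 = (5 * κ + d) + 2 by ring, pow_add]; norm_num
          rw [e1, e2]; ring
      _ = 1 / 4 := by rw [← mul_pow]; norm_num
      _ ≤ 1 / 4 := le_rfl
  refine ⟨k, u, V, t, q, y, hk1, hu1, ht1, hq0, hq1, hy0, hy1, hVl, ?_⟩
  intro s hs H
  have hsR : (1 : ℝ) ≤ s := by exact_mod_cast hs
  have hc := core5 N w m T δ t Q A y U u k V η s hNR hwR hTR hTmR hδ0 hδ1 htR hQ0 hQ1 hA0 hAe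
    hAN hy hU hu0 huU hUu hk0 hkc1 hkc2 hVu hη0 hηN hsR H
  have hR4 : (24 * (t : ℝ)) ^ (4 * d) * Q ^ 4 = 1 := by
    have : (24 * (t : ℝ)) ^ (4 * d) = ((24 * (t : ℝ)) ^ d) ^ 4 := by
      rw [← pow_mul, mul_comm d 4]
    rw [this, ← mul_pow, hRQ, one_pow]
  have hR0 : 0 < (24 * (t : ℝ)) ^ (4 * d) := by positivity
  calc δ ^ 6 * (N : ℝ) ^ 2 * T
      = (24 * (t : ℝ)) ^ (4 * d) * (δ ^ 6 * (N : ℝ) ^ 2 * T * Q ^ 4) := by
        calc δ ^ 6 * (N : ℝ) ^ 2 * T = δ ^ 6 * (N : ℝ) ^ 2 * T * 1 := by ring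
          _ = δ ^ 6 * (N : ℝ) ^ 2 * T * ((24 * (t : ℝ)) ^ (4 * d) * Q ^ 4) := by rw [hR4]
          _ = (24 * (t : ℝ)) ^ (4 * d) * (δ ^ 6 * (N : ℝ) ^ 2 * T * Q ^ 4) := by ring
    _ ≤ (24 * (t : ℝ)) ^ (4 * d) * (500 * 24 ^ 4 * t ^ 4 * (s * w ^ 3 * m ^ 2)) :=
        mul_le_mul_of_nonneg_left hc hR0.le
    _ = 500 * (24 * (t : ℝ)) ^ (4 * (d + 1)) * s * w ^ 3 * m ^ 2 := by ring

end Pool.Agent.J4H17.CDC
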