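import Mathlib

/-!
# Arithmetic for set disjointness queries: the inequality of the real parameters
-/

set_option autoImplicit false

namespace Pool.Agent.J4H17.CDC

theorem core6 (N w T δ t Q A v k V η s : ℝ) (hN : 2 ≤ N) (hw : 1 ≤ w) (hT : 1 ≤ T)
    (hδ0 : 0 < δ) (hδ1 : δ ≤ 1 / 2) (ht : 1 ≤ t) (hQ0 : 0 < Q) (hQ1 : Q ≤ 1)
    (hA0 : 0 < A) (hA : A * (δ ^ 2 * Q) = T * w * (t + 1))
    (hv0 : 0 < v) (hv1 : 40 * A ≤ v) (hv2 : v ≤ 41 * A) (hvN : 8 * v ≤ N)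
    (hk0 : 0 < k) (hk1 : k * (8 * v) ≤ N) (hk2 : N ≤ 16 * v * k)
    (hV : V * (δ / v * Q) ≤ 5 * (t + 1)) (hη0 : 0 ≤ η) (hη : η * N ^ 4 ≤ 1 / 4) (hs : 1 ≤ s)
    (H : (2 * δ - v ^ 2 * (δ / v / 2) ^ 2 - 2 * (k * v ^ 2 * (δ / v)) / N) * (k ^ 2 * v ^ 2) ≤
      k ^ 2 * v ^ 2 * (2 * (s * w) * η) + k ^ 2 * (2 * (T * w * V)) +
      (s * w) * (2 * t ^ 2 + (2 * (k * v ^ 2)) ^ 2 * η) / (δ / v * Q) ^ 2) :
    δ ^ 7 * N ^ 2 * Q ^ 4 ≤ 32 * 24 ^ 4 * t ^ 4 * (s * w ^ 3 * T ^ 2) := by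
  have hT0 : 0 < T := by linarith only [hT]
  have hw0 : 0 < w := by linarith only [hw]
  have hN0 : 0 < N := by linarith only [hN]
  have ht0 : 0 < t := by linarith only [ht]
  have hs0 : 0 < s := by linarith only [hs]
  have hδδ : δ ^ 2 ≤ δ / 2 := by
    have := mul_le_mul_of_nonneg_left hδ1 hδ0.le
    calc δ ^ 2 = δ * δ := by ring
      _ ≤ δ * (1 / 2) := this
      _ = δ / 2 := by ring
  have L1 : v ^ 2 * (δ / v / 2) ^ 2 ≤ δ / 8 := by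
    have e : v ^ 2 * (δ / v / 2) ^ 2 = δ ^ 2 / 4 := by field_simp; ring
    rw [e]; linarith only [hδδ]
  have L2 : 2 * (k * v ^ 2 * (δ / v)) / N ≤ δ / 4 := by
    rw [div_le_iff₀ hN0]
    have e : 2 * (k * v ^ 2 * (δ / v)) = δ / 4 * (k * (8 * v)) := by field_simp; ring
    rw [e]
    exact mul_le_mul_of_nonneg_left hk1 (by positivity)
  have hku0 : 0 < k ^ 2 * v ^ 2 := by positivity
  have R2 : k ^ 2 * (2 * (T * w * V)) ≤ δ / 4 * (k ^ 2 * v ^ 2) := by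
    have hV' : V * (δ * Q) ≤ 5 * (t + 1) * v := by
      have : V * (δ / v * Q) = V * (δ * Q) / v := by ring
      rw [this, div_le_iff₀ hv0] at hV
      exact hV
    have h1 : 2 * (T * w * V) ≤ δ / 4 * v ^ 2 := by
      refine le_of_mul_le_mul_right (a := δ * Q) ?_ (by positivity)
      calc 2 * (T * w * V) * (δ * Q) = 2 * (T * w) * (V * (δ * Q)) := by ring
        _ ≤ 2 * (T * w) * (5 * (t + 1) * v) := mul_le_mul_of_nonneg_left hV' (by positivity)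
        _ = 10 * (T * w * (t + 1)) * v := by ring
        _ = 10 * (A * (δ ^ 2 * Q)) * v := by rw [hA]
        _ = δ ^ 2 * Q * v / 4 * (40 * A) := by ring
        _ ≤ δ ^ 2 * Q * v / 4 * v := mul_le_mul_of_nonneg_left hv1 (by positivity)
        _ = δ / 4 * v ^ 2 * (δ * Q) := by ring
    calc k ^ 2 * (2 * (T * w * V)) ≤ k ^ 2 * (δ / 4 * v ^ 2) :=
          mul_le_mul_of_nonneg_left h1 (by positivity)
      _ = δ / 4 * (k ^ 2 * v ^ 2) := by ring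
  by_cases hcase : δ / 4 ≤ 2 * (s * w) * η
  · have h1 : δ / 4 * N ^ 4 ≤ (2 * (s * w)) * (1 / 4) := by
      calc δ / 4 * N ^ 4 ≤ 2 * (s * w) * η * N ^ 4 :=
            mul_le_mul_of_nonneg_right hcase (by positivity)
        _ = (2 * (s * w)) * (η * N ^ 4) := by ring
        _ ≤ (2 * (s * w)) * (1 / 4) := mul_le_mul_of_nonneg_left hη (by positivity)
    have h2 : δ * N ^ 2 ≤ s * w := by
      have hN2 : 2 ≤ N ^ 2 := by
        calc (2 : ℝ) ≤ 2 ^ 2 := by norm_num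
          _ ≤ N ^ 2 := pow_le_pow_left₀ (by norm_num) hN 2
      have h3 : δ * N ^ 2 * 2 ≤ δ * N ^ 2 * N ^ 2 := mul_le_mul_of_nonneg_left hN2 (by positivity)
      have e : δ * N ^ 2 * N ^ 2 = δ * N ^ 4 := by ring
      rw [e] at h3
      linarith only [h1, h3]
    have hδ7 : δ ^ 7 ≤ δ := by
      have : δ ^ 7 ≤ δ ^ 1 := pow_le_pow_of_le_one hδ0.le (by linarith only [hδ1]) (by norm_num)
      simpa using this
    have hQ4 : Q ^ 4 ≤ 1 := pow_le_one₀ hQ0.le hQ1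
    have ht4 : 1 ≤ t ^ 4 := one_le_pow₀ ht
    have hT2 : 1 ≤ T ^ 2 := one_le_pow₀ hT
    have hw2 : 1 ≤ w ^ 2 := one_le_pow₀ hw
    calc δ ^ 7 * N ^ 2 * Q ^ 4 ≤ δ * N ^ 2 * 1 :=
          mul_le_mul (mul_le_mul_of_nonneg_right hδ7 (by positivity)) hQ4 (by positivity)
            (by positivity)
      _ ≤ (s * w) * 1 := mul_le_mul_of_nonneg_right h2 zero_le_one
      _ ≤ (s * w) * (32 * 24 ^ 4 * (t ^ 4 * (w ^ 2 * T ^ 2))) := by
          refine mul_le_mul_of_nonneg_left ?_ (by positivity)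
          have h5 : 1 ≤ t ^ 4 * (w ^ 2 * T ^ 2) :=
            one_le_mul_of_one_le_of_one_le ht4 (one_le_mul_of_one_le_of_one_le hw2 hT2)
          linarith only [h5]
      _ = 32 * 24 ^ 4 * t ^ 4 * (s * w ^ 3 * T ^ 2) := by ring
  · rw [not_le] at hcase
    have R1 : k ^ 2 * v ^ 2 * (2 * (s * w) * η) ≤ δ / 4 * (k ^ 2 * v ^ 2) := by
      calc k ^ 2 * v ^ 2 * (2 * (s * w) * η) ≤ k ^ 2 * v ^ 2 * (δ / 4) :=
            mul_le_mul_of_nonneg_left hcase.le hku0.le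
        _ = δ / 4 * (k ^ 2 * v ^ 2) := by ring
    have hL : 13 / 8 * δ * (k ^ 2 * v ^ 2) ≤
        (2 * δ - v ^ 2 * (δ / v / 2) ^ 2 - 2 * (k * v ^ 2 * (δ / v)) / N) * (k ^ 2 * v ^ 2) := by
      refine mul_le_mul_of_nonneg_right ?_ hku0.le
      linarith only [L1, L2]
    have hkvN : k * v ^ 2 ≤ N ^ 2 / 64 := by
      have h1 : (k * (8 * v)) * (8 * v) ≤ N * N :=
        mul_le_mul hk1 hvN (by positivity) hN0.le
      have e : (k * (8 * v)) * (8 * v) = 64 * (k * v ^ 2) := by ring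
      rw [e] at h1
      have e2 : N ^ 2 = N * N := by ring
      rw [e2]; linarith only [h1]
    have hsmall : (2 * (k * v ^ 2)) ^ 2 * η ≤ 2 * t ^ 2 := by
      have h1 : (2 * (k * v ^ 2)) ^ 2 ≤ N ^ 4 := by
        calc (2 * (k * v ^ 2)) ^ 2 ≤ (2 * (N ^ 2 / 64)) ^ 2 :=
              pow_le_pow_left₀ (by positivity) (by linarith only [hkvN]) 2
          _ = N ^ 4 / 1024 := by ring
          _ ≤ N ^ 4 := div_le_self (by positivity) (by norm_num)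
      have h2 : (2 * (k * v ^ 2)) ^ 2 * η ≤ N ^ 4 * η := mul_le_mul_of_nonneg_right h1 hη0
      have h3 : 1 ≤ t ^ 2 := one_le_pow₀ ht
      have e : N ^ 4 * η = η * N ^ 4 := by ring
      rw [e] at h2
      linarith only [h2, h3, hη]
    set W : ℝ := (s * w) * (2 * t ^ 2 + (2 * (k * v ^ 2)) ^ 2 * η) / (δ / v * Q) ^ 2 with hW
    have h7 : 9 / 8 * δ * (k ^ 2 * v ^ 2) ≤ W := by linarith only [hL, H, R1, R2]
    have h8 : W * (δ / v * Q) ^ 2 ≤ 4 * t ^ 2 * (s * w) := by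
      have e : W * (δ / v * Q) ^ 2 = (s * w) * (2 * t ^ 2 + (2 * (k * v ^ 2)) ^ 2 * η) := by
        rw [hW]; exact div_mul_cancel₀ _ (by positivity)
      rw [e]
      calc (s * w) * (2 * t ^ 2 + (2 * (k * v ^ 2)) ^ 2 * η) ≤ (s * w) * (2 * t ^ 2 + 2 * t ^ 2) :=
            mul_le_mul_of_nonneg_left (by linarith only [hsmall]) (by positivity)
        _ = 4 * t ^ 2 * (s * w) := by ring
    have h9 : 9 / 8 * δ ^ 3 * Q ^ 2 * k ^ 2 ≤ 4 * t ^ 2 * (s * w) := by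
      calc 9 / 8 * δ ^ 3 * Q ^ 2 * k ^ 2 = 9 / 8 * δ * (k ^ 2 * v ^ 2) * (δ / v * Q) ^ 2 := by
            field_simp
        _ ≤ W * (δ / v * Q) ^ 2 := mul_le_mul_of_nonneg_right h7 (by positivity)
        _ ≤ 4 * t ^ 2 * (s * w) := h8
    have hk3 : N ^ 2 ≤ 256 * 41 ^ 2 * A ^ 2 * k ^ 2 := by
      calc N ^ 2 ≤ (16 * v * k) ^ 2 := pow_le_pow_left₀ hN0.le hk2 2
        _ ≤ (16 * (41 * A) * k) ^ 2 := by
          refine pow_le_pow_left₀ (by positivity) ?_ 2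
          refine mul_le_mul_of_nonneg_right ?_ hk0.le
          exact mul_le_mul_of_nonneg_left hv2 (by norm_num)
        _ = 256 * 41 ^ 2 * A ^ 2 * k ^ 2 := by ring
    have h10 : 9 / 8 * δ ^ 3 * Q ^ 2 * N ^ 2 ≤ 256 * 41 ^ 2 * A ^ 2 * (4 * t ^ 2 * (s * w)) := by
      calc 9 / 8 * δ ^ 3 * Q ^ 2 * N ^ 2
          ≤ 9 / 8 * δ ^ 3 * Q ^ 2 * (256 * 41 ^ 2 * A ^ 2 * k ^ 2) :=
            mul_le_mul_of_nonneg_left hk3 (by positivity)
        _ = 256 * 41 ^ 2 * A ^ 2 * (9 / 8 * δ ^ 3 * Q ^ 2 * k ^ 2) := by ring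
        _ ≤ 256 * 41 ^ 2 * A ^ 2 * (4 * t ^ 2 * (s * w)) :=
            mul_le_mul_of_nonneg_left h9 (by positivity)
    have hA2 : A ^ 2 * (δ ^ 2 * Q) ^ 2 ≤ 4 * t ^ 2 * (T * w) ^ 2 := by
      calc A ^ 2 * (δ ^ 2 * Q) ^ 2 = (A * (δ ^ 2 * Q)) ^ 2 := by ring
        _ = (T * w * (t + 1)) ^ 2 := by rw [hA]
        _ ≤ (T * w * (2 * t)) ^ 2 := by
          refine pow_le_pow_left₀ (by positivity) ?_ 2
          exact mul_le_mul_of_nonneg_left (by linarith only [ht]) (by positivity)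
        _ = 4 * t ^ 2 * (T * w) ^ 2 := by ring
    have h11 : 9 / 8 * (δ ^ 7 * N ^ 2 * Q ^ 4) ≤
        256 * 41 ^ 2 * 16 * (t ^ 4 * (s * w ^ 3 * T ^ 2)) := by
      calc 9 / 8 * (δ ^ 7 * N ^ 2 * Q ^ 4)
          = 9 / 8 * δ ^ 3 * Q ^ 2 * N ^ 2 * (δ ^ 2 * Q) ^ 2 := by ring
        _ ≤ 256 * 41 ^ 2 * A ^ 2 * (4 * t ^ 2 * (s * w)) * (δ ^ 2 * Q) ^ 2 :=
            mul_le_mul_of_nonneg_right h10 (by positivity)
        _ = 256 * 41 ^ 2 * (4 * t ^ 2 * (s * w)) * (A ^ 2 * (δ ^ 2 * Q) ^ 2) := by ring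
        _ ≤ 256 * 41 ^ 2 * (4 * t ^ 2 * (s * w)) * (4 * t ^ 2 * (T * w) ^ 2) :=
            mul_le_mul_of_nonneg_left hA2 (by positivity)
        _ = 256 * 41 ^ 2 * 16 * (t ^ 4 * (s * w ^ 3 * T ^ 2)) := by ring
    have hZ : 0 ≤ t ^ 4 * (s * w ^ 3 * T ^ 2) := by positivity
    have e2 : (32 : ℝ) * 24 ^ 4 * t ^ 4 * (s * w ^ 3 * T ^ 2) =
      32 * 24 ^ 4 * (t ^ 4 * (s * w ^ 3 * T ^ 2)) := by ring
    rw [e2]
    linarith only [h11, hZ]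

end Pool.Agent.J4H17.CDC
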