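import Pool.Agent.J4H85.CD.Stm4
import Pool.Agent.J4H17.CDC.Ari4Core

/-!
# Arithmetic for set disjointness queries with constant-depth memory (piece ARI4)
-/

set_option autoImplicit false

namespace Pool.Agent.J4H17.CDC

open Pool.Agent.J4H85.CD H568R2

theorem t_ARI4 : S_ARI4 := by
  intro N w T d κ δ hN hNκ hw hT hδ0 hδ1 hyp
  set t : ℕ := 5 * κ + d + 1 with ht
  have ht1 : 1 ≤ t := by omega
  have htR : (1 : ℝ) ≤ t := by exact_mod_cast ht1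
  have ht0 : (0 : ℝ) < t := by linarith
  have h24 : (120 * κ + 24 * d + 24 : ℝ) = 24 * t := by rw [ht]; push_cast; ring
  rw [h24] at hyp
  rw [h24]
  have hNR : (2 : ℝ) ≤ N := by exact_mod_cast hN
  have hN0 : (0 : ℝ) < N := by linarith
  have hwR : (1 : ℝ) ≤ w := by exact_mod_cast hw
  have hTR : (1 : ℝ) ≤ T := by exact_mod_cast hT
  have hT0 : (0 : ℝ) < T := by linarith
  have hw0 : (0 : ℝ) < w := by linarith
  set q : ℝ := 1 / (24 * t) with hq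
  have hq0 : 0 < q := by positivity
  have hq1 : q ≤ 1 / 3 := by
    rw [hq]
    exact one_div_le_one_div_of_le (by norm_num) (by linarith)
  set Q : ℝ := q ^ d with hQ
  have hQ0 : 0 < Q := by positivity
  have hQ1 : Q ≤ 1 := pow_le_one₀ hq0.le (by linarith)
  have hRQ : (24 * (t : ℝ)) ^ d * Q = 1 := by
    rw [hQ, hq, ← mul_pow]
    have : 24 * (t : ℝ) * (1 / (24 * t)) = 1 := by field_simp
    rw [this, one_pow]
  have hd2 : 0 < δ ^ 2 * Q := by positivity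
  set A : ℝ := T * w * (t + 1) / (δ ^ 2 * Q) with hA
  have hA0 : 0 < A := by positivity
  have hAe : A * (δ ^ 2 * Q) = T * w * (t + 1) := by rw [hA]; field_simp
  have hAN : 328 * A ≤ N := by
    refine le_of_mul_le_mul_right (a := δ ^ 2 * Q) ?_ hd2
    have h1 : 28 * (24 * (t : ℝ)) ^ (d + 1) * (w * T) * Q ≤ δ ^ 2 * N * Q :=
      mul_le_mul_of_nonneg_right hyp hQ0.le
    have h2 : 28 * (24 * (t : ℝ)) ^ (d + 1) * (w * T) * Q = 28 * (24 * t) * (w * T) := by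
      calc 28 * (24 * (t : ℝ)) ^ (d + 1) * (w * T) * Q
          = 28 * (24 * t) * (w * T) * ((24 * (t : ℝ)) ^ d * Q) := by ring
        _ = 28 * (24 * t) * (w * T) := by rw [hRQ, mul_one]
    rw [h2] at h1
    calc 328 * A * (δ ^ 2 * Q) = 328 * (A * (δ ^ 2 * Q)) := by ring
      _ = 328 * ((T : ℝ) * w * (t + 1)) := by rw [hAe]
      _ = 328 * ((t : ℝ) + 1) * (w * T) := by ring
      _ ≤ 28 * (24 * (t : ℝ)) * (w * T) := by
        refine mul_le_mul_of_nonneg_right ?_ (by positivity)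
        linarith
      _ ≤ δ ^ 2 * N * Q := h1
      _ = N * (δ ^ 2 * Q) := by ring
  have hG1 : δ ^ 2 * Q ≤ 1 := mul_le_one₀ (pow_le_one₀ hδ0.le (by linarith)) hQ0.le hQ1
  have hA1 : 1 ≤ A := by
    rw [hA, le_div_iff₀ hd2]
    have : (1 : ℝ) ≤ T * w * (t + 1) :=
      one_le_mul_of_one_le_of_one_le (one_le_mul_of_one_le_of_one_le hTR hwR) (by linarith)
    linarith
  set v : ℕ := ⌈40 * A⌉₊ with hv
  have hvl : 40 * A ≤ v := Nat.le_ceil _
  have hvu : (v : ℝ) ≤ 41 * A := by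
    have := (Nat.ceil_lt_add_one (by positivity : 0 ≤ 40 * A)).le
    rw [← hv] at this
    linarith
  have hv1R : (1 : ℝ) ≤ v := by linarith
  have hv1 : 1 ≤ v := by exact_mod_cast hv1R
  have hv0 : (0 : ℝ) < v := by linarith
  have hvN : 8 * (v : ℝ) ≤ N := by linarith
  have hvN' : 8 * v ≤ N := by exact_mod_cast hvN
  have hv8 : 0 < 8 * v := by omega
  set k : ℕ := N / (8 * v) with hk
  have hk1 : 1 ≤ k := (Nat.one_le_div_iff hv8).2 hvN'
  have hk1R : (1 : ℝ) ≤ k := by exact_mod_cast hk1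
  have hk0 : (0 : ℝ) < k := by linarith
  have hkc1 : (k : ℝ) * (8 * v) ≤ N := by
    have : k * (8 * v) ≤ N := Nat.div_mul_le_self _ _
    exact_mod_cast this
  have hkc2 : (N : ℝ) ≤ 16 * v * k := by
    have h1 : N < 8 * v * (N / (8 * v) + 1) := Nat.lt_mul_div_succ N hv8
    have h2 : 8 * v * (N / (8 * v) + 1) ≤ 8 * v * (2 * k) :=
      Nat.mul_le_mul_left _ (by rw [← hk]; omega)
    have h3 : N ≤ 16 * v * k := by
      calc N ≤ 8 * v * (2 * k) := le_trans h1.le h2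
        _ = 16 * v * k := by ring
    exact_mod_cast h3
  have hy0 : 0 < δ / v := by positivity
  have hy1 : δ / v ≤ 1 := by
    rw [div_le_one hv0]; linarith
  have hyQ0 : 0 < δ / v * Q := by positivity
  have hyQ1 : δ / v * Q ≤ 1 := mul_le_one₀ hy1 hQ0.le hQ1
  set V : ℕ := ⌈4 * ((t : ℝ) + 1) / (δ / v * Q)⌉₊ with hV
  have hVl : 4 * ((t : ℝ) + 1) ≤ V * (δ / v * Q) := by
    have := Nat.le_ceil (4 * ((t : ℝ) + 1) / (δ / v * Q))
    rwa [div_le_iff₀ hyQ0] at this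
  have hVu : V * (δ / v * Q) ≤ 5 * ((t : ℝ) + 1) := by
    have h1 := (Nat.ceil_lt_add_one (by positivity : 0 ≤ 4 * ((t : ℝ) + 1) / (δ / v * Q))).le
    have h2 := mul_le_mul_of_nonneg_right h1 hyQ0.le
    have h3 : (4 * ((t : ℝ) + 1) / (δ / v * Q) + 1) * (δ / v * Q) =
        4 * (t + 1) + δ / v * Q := by
      field_simp
    rw [h3] at h2
    linarith
  set η : ℝ := et d t (2 ^ κ) q with hη
  have hη0 : 0 ≤ η := by
    rw [hη]; unfold et; positivity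
  have hηN : η * (N : ℝ) ^ 4 ≤ 1 / 4 := by
    have h1 : 12 * (t : ℝ) * q = 1 / 2 := by rw [hq]; field_simp; norm_num
    have h2 : η = d * (2 : ℝ) ^ κ * (1 / 2) ^ (t + 1) := by
      rw [hη]; unfold et; rw [h1]; push_cast; rfl
    have h3 : (N : ℝ) ^ 4 ≤ (2 : ℝ) ^ (4 * κ) := by
      have : (N : ℝ) ≤ (2 : ℝ) ^ κ := by exact_mod_cast hNκ
      calc (N : ℝ) ^ 4 ≤ ((2 : ℝ) ^ κ) ^ 4 := pow_le_pow_left₀ hN0.le this 4
        _ = (2 : ℝ) ^ (4 * κ) := by rw [← pow_mul, mul_comm]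
    have h4 : (d : ℝ) ≤ (2 : ℝ) ^ d := by exact_mod_cast (Nat.lt_two_pow_self (n := d)).le
    rw [h2]
    calc (d * (2 : ℝ) ^ κ * (1 / 2) ^ (t + 1)) * (N : ℝ) ^ 4
        ≤ ((2 : ℝ) ^ d * (2 : ℝ) ^ κ * (1 / 2) ^ (t + 1)) * (2 : ℝ) ^ (4 * κ) := by
          refine mul_le_mul ?_ h3 (by positivity) (by positivity)
          refine mul_le_mul_of_nonneg_right ?_ (by positivity)
          exact mul_le_mul_of_nonneg_right h4 (by positivity)
      _ = (2 : ℝ) ^ (5 * κ + d) * (1 / 2) ^ (5 * κ + d) * (1 / 4) := by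
          have e1 : (2 : ℝ) ^ (5 * κ + d) = 2 ^ d * 2 ^ κ * 2 ^ (4 * κ) := by
            rw [← pow_add, ← pow_add]; congr 1; ring
          have e2 : (1 / 2 : ℝ) ^ (t + 1) = (1 / 2) ^ (5 * κ + d) * (1 / 4) := by
            rw [ht, show 5 * κ + d + 1 + 1 = (5 * κ + d) + 2 by ring, pow_add]; norm_num
          rw [e1, e2]; ring
      _ = 1 / 4 := by rw [← mul_pow]; norm_num
      _ ≤ 1 / 4 := le_rfl
  refine ⟨k, v ^ 2, V, t, q, δ / v, hk1, Nat.pow_pos hv1, ht1, hq0, hq1, hy0, hy1, hVl, ?_⟩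
  intro s hs H
  have hsR : (1 : ℝ) ≤ s := by exact_mod_cast hs
  push_cast at H
  have hc := core6 N w T δ t Q A v k V η s hNR hwR hTR hδ0 hδ1 htR hQ0 hQ1 hA0 hAe hv0 hvl hvu
    hvN hk0 hkc1 hkc2 hVu hη0 hηN hsR H
  have hR4 : (24 * (t : ℝ)) ^ (4 * d) * Q ^ 4 = 1 := by
    have : (24 * (t : ℝ)) ^ (4 * d) = ((24 * (t : ℝ)) ^ d) ^ 4 := by
      rw [← pow_mul, mul_comm d 4]
    rw [this, ← mul_pow, hRQ, one_pow]
  have hR0 : 0 < (24 * (t : ℝ)) ^ (4 * d) := by positivity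
  calc δ ^ 7 * (N : ℝ) ^ 2
      = (24 * (t : ℝ)) ^ (4 * d) * (δ ^ 7 * (N : ℝ) ^ 2 * Q ^ 4) := by
        calc δ ^ 7 * (N : ℝ) ^ 2 = δ ^ 7 * (N : ℝ) ^ 2 * 1 := by ring
          _ = δ ^ 7 * (N : ℝ) ^ 2 * ((24 * (t : ℝ)) ^ (4 * d) * Q ^ 4) := by rw [hR4]
          _ = (24 * (t : ℝ)) ^ (4 * d) * (δ ^ 7 * (N : ℝ) ^ 2 * Q ^ 4) := by ring
    _ ≤ (24 * (t : ℝ)) ^ (4 * d) * (32 * 24 ^ 4 * t ^ 4 * (s * w ^ 3 * T ^ 2)) :=
        mul_le_mul_of_nonneg_left hc hR0.le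
    _ = 32 * (24 * (t : ℝ)) ^ (4 * (d + 1)) * s * w ^ 3 * T ^ 2 := by ring

end Pool.Agent.J4H17.CDC
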