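import Pool.Agent.J4H85.CD.Stm5
import Pool.Agent.J4H17.CDC.Ari2

/-!
# Arithmetic for the constant-depth memory with atoms (piece ARI5)
-/

set_option autoImplicit false

namespace Pool.Agent.J4H17.CDC

open Pool.Agent.J4H85.CD H568R2

theorem t_ARI5 : S_ARI5 := by
  intro n s w T d κ r δ hn hnκ hs hw hT hr hδ0 hδ1 H
  set t : ℕ := 3 * κ + d + r with ht
  have ht1 : 1 ≤ t := by omega
  have hrt : r ≤ t := by omega
  have htR : (1 : ℝ) ≤ t := by exact_mod_cast ht1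
  have ht0 : (0 : ℝ) < t := by linarith
  have h24 : (72 * κ + 24 * d + 24 * r : ℝ) = 24 * t := by rw [ht]; push_cast; ring
  rw [h24]
  set A : ℝ := (24 * (t : ℝ)) ^ (6 * d) with hA
  have hA1 : 1 ≤ A := one_le_pow₀ (by linarith)
  have hA0 : 0 < A := by linarith
  set C : ℝ := 10 * (24 * (t : ℝ)) ^ (6 * (d + 1)) with hC
  have hCA : C = 10 * 24 ^ 6 * (t : ℝ) ^ 6 * A := by
    rw [hC, hA, mul_add, pow_add]; ring
  have ht6 : (t : ℝ) ^ 4 ≤ (t : ℝ) ^ 6 := pow_le_pow_right₀ htR (by norm_num)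
  have ht61 : (1 : ℝ) ≤ (t : ℝ) ^ 6 := one_le_pow₀ htR
  have hB4 : ((t : ℝ) + 1) ^ 4 ≤ 16 * (t : ℝ) ^ 4 := by
    calc ((t : ℝ) + 1) ^ 4 ≤ (2 * (t : ℝ)) ^ 4 :=
          pow_le_pow_left₀ (by positivity) (by linarith) 4
      _ = 16 * (t : ℝ) ^ 4 := by ring
  have hC0 : 0 < C := by positivity
  have hC1 : 32 * 31 ^ 4 * ((t : ℝ) ^ 2 * ((t : ℝ) + 1) ^ 4) * A ≤ C := by
    rw [hCA]
    refine mul_le_mul_of_nonneg_right ?_ hA0.le
    calc 32 * 31 ^ 4 * ((t : ℝ) ^ 2 * ((t : ℝ) + 1) ^ 4)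
        ≤ 32 * 31 ^ 4 * ((t : ℝ) ^ 2 * (16 * (t : ℝ) ^ 4)) := by
          refine mul_le_mul_of_nonneg_left ?_ (by norm_num)
          exact mul_le_mul_of_nonneg_left hB4 (by positivity)
      _ = 32 * 31 ^ 4 * 16 * (t : ℝ) ^ 6 := by ring
      _ ≤ 10 * 24 ^ 6 * (t : ℝ) ^ 6 :=
          mul_le_mul_of_nonneg_right (by norm_num) (by positivity)
  have hC4 : 31 ^ 4 * ((t : ℝ) + 1) ^ 4 * A ≤ C := by
    rw [hCA]
    refine mul_le_mul_of_nonneg_right ?_ hA0.le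
    calc 31 ^ 4 * ((t : ℝ) + 1) ^ 4 ≤ 31 ^ 4 * (16 * (t : ℝ) ^ 4) :=
          mul_le_mul_of_nonneg_left hB4 (by norm_num)
      _ ≤ 31 ^ 4 * (16 * (t : ℝ) ^ 6) := by
          refine mul_le_mul_of_nonneg_left ?_ (by norm_num)
          exact mul_le_mul_of_nonneg_left ht6 (by norm_num)
      _ = 31 ^ 4 * 16 * (t : ℝ) ^ 6 := by ring
      _ ≤ 10 * 24 ^ 6 * (t : ℝ) ^ 6 :=
          mul_le_mul_of_nonneg_right (by norm_num) (by positivity)
  have hC2 : 16 * 31 ^ 4 * ((t : ℝ) + 1) ^ 4 * A * 1 ≤ C := by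
    rw [hCA, mul_one]
    refine mul_le_mul_of_nonneg_right ?_ hA0.le
    calc 16 * 31 ^ 4 * ((t : ℝ) + 1) ^ 4 ≤ 16 * 31 ^ 4 * (16 * (t : ℝ) ^ 4) :=
          mul_le_mul_of_nonneg_left hB4 (by norm_num)
      _ ≤ 16 * 31 ^ 4 * (16 * (t : ℝ) ^ 6) := by
          refine mul_le_mul_of_nonneg_left ?_ (by norm_num)
          exact mul_le_mul_of_nonneg_left ht6 (by norm_num)
      _ = 16 * 31 ^ 4 * 16 * (t : ℝ) ^ 6 := by ring
      _ ≤ 10 * 24 ^ 6 * (t : ℝ) ^ 6 :=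
          mul_le_mul_of_nonneg_right (by norm_num) (by positivity)
  have hC3 : 8 * (1 : ℝ) ≤ C := by
    rw [hCA]
    have h1 : (1 : ℝ) ≤ (t : ℝ) ^ 6 * A := one_le_mul_of_one_le_of_one_le ht61 hA1
    nlinarith
  have hnR : (1 : ℝ) ≤ n := by exact_mod_cast hn
  have hn0 : (0 : ℝ) < n := by linarith
  have hsR : (1 : ℝ) ≤ s := by exact_mod_cast hs
  have hwR : (1 : ℝ) ≤ w := by exact_mod_cast hw
  have hTR : (1 : ℝ) ≤ T := by exact_mod_cast hT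
  set q : ℝ := 1 / (24 * t) with hq
  have hq0 : 0 < q := by positivity
  have hq1 : q ≤ 1 / 3 := by
    rw [hq]
    exact one_div_le_one_div_of_le (by norm_num) (by linarith)
  set Q : ℝ := q ^ d with hQ
  have hQ0 : 0 < Q := by positivity
  have hQ1 : Q ≤ 1 := pow_le_one₀ hq0.le (by linarith)
  have hAQ : 1 ≤ A * 1 * Q ^ 6 := by
    refine le_of_eq ?_
    rw [hQ, hq, hA, ← pow_mul, mul_comm d 6, one_div_pow, mul_one]
    field_simp
  set η : ℝ := et d t (2 ^ κ) q with hη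
  have hη0 : 0 ≤ η := by
    rw [hη]; unfold et; positivity
  have hηD : (n : ℝ) ^ 2 * 1 * η ≤ 1 := by
    have h1 : 12 * (t : ℝ) * q = 1 / 2 := by rw [hq]; field_simp; norm_num
    have h2 : η = d * (2 : ℝ) ^ κ * (1 / 2) ^ (t + 1) := by
      rw [hη]; unfold et; rw [h1]; push_cast; rfl
    have h3 : (n : ℝ) ^ 2 ≤ (2 : ℝ) ^ (2 * κ) := by
      have : (n : ℝ) ≤ (2 : ℝ) ^ κ := by exact_mod_cast hnκ
      calc (n : ℝ) ^ 2 ≤ ((2 : ℝ) ^ κ) ^ 2 := pow_le_pow_left₀ hn0.le this 2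
        _ = (2 : ℝ) ^ (2 * κ) := by rw [← pow_mul, mul_comm]
    have h4 : (d : ℝ) ≤ (2 : ℝ) ^ d := by exact_mod_cast (Nat.lt_two_pow_self (n := d)).le
    rw [h2, mul_one]
    calc (n : ℝ) ^ 2 * (d * (2 : ℝ) ^ κ * (1 / 2) ^ (t + 1))
        ≤ (2 : ℝ) ^ (2 * κ) * ((2 : ℝ) ^ d * (2 : ℝ) ^ κ * (1 / 2) ^ (t + 1)) := by
          refine mul_le_mul h3 ?_ (by positivity) (by positivity)
          refine mul_le_mul_of_nonneg_right ?_ (by positivity)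
          exact mul_le_mul_of_nonneg_right h4 (by positivity)
      _ = (2 : ℝ) ^ (3 * κ + d) * (1 / 2) ^ (3 * κ + d) * (1 / 2) ^ (r + 1) := by
          have e1 : (2 : ℝ) ^ (3 * κ + d) = 2 ^ (2 * κ) * (2 ^ d * 2 ^ κ) := by
            rw [← pow_add, ← pow_add]; congr 1; ring
          have e2 : (1 / 2 : ℝ) ^ (t + 1) = (1 / 2) ^ (3 * κ + d) * (1 / 2) ^ (r + 1) := by
            rw [ht, ← pow_add]; congr 1
          rw [e1, e2]; ring
      _ = (1 / 2) ^ (r + 1) := by rw [← mul_pow]; norm_num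
      _ ≤ 1 := pow_le_one₀ (by norm_num) (by norm_num)
  by_contra hcon
  rw [not_le] at hcon
  have hX : C * ((s : ℝ) * (w * T) ^ 5) * 1 < δ ^ 11 * (n : ℝ) ^ 2 := by
    calc C * ((s : ℝ) * (w * T) ^ 5) * 1 = C * s * (w * T) ^ 5 := by ring
      _ < δ ^ 11 * (n : ℝ) ^ 2 := hcon
  set K : ℝ := (t : ℝ) with hK
  have hK0 : 0 ≤ K := by linarith
  have hB1 : (1 : ℝ) ≤ K + 1 := by linarith
  have hG0 : 0 < δ ^ 2 * Q := by positivity
  have hG1 : δ ^ 2 * Q ≤ 1 := mul_le_one₀ (pow_le_one₀ hδ0.le (by linarith)) hQ0.le hQ1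
  set F : ℝ := T * w * (K + 1) / (δ ^ 2 * Q) with hF
  have hTw : (1 : ℝ) ≤ T * w * (K + 1) :=
    one_le_mul_of_one_le_of_one_le (one_le_mul_of_one_le_of_one_le hTR hwR) hB1
  have hF1 : 1 ≤ F := by
    rw [hF, le_div_iff₀ hG0]; linarith
  have hFG : F * (δ ^ 2 * Q) = T * w * (K + 1) := by
    rw [hF]; field_simp
  set v : ℕ := ⌈30 * F⌉₊ with hv
  have hvl : 30 * F ≤ v := Nat.le_ceil _
  have hvu : (v : ℝ) ≤ 31 * F := by
    have := (Nat.ceil_lt_add_one (by positivity : 0 ≤ 30 * F)).le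
    linarith
  have hv1R : (1 : ℝ) ≤ v := by linarith
  have hv1 : 1 ≤ v := by exact_mod_cast hv1R
  have hv0 : (0 : ℝ) < v := by linarith
  have c1 : 30 * ((T : ℝ) * w * (K + 1)) ≤ v * (δ ^ 2 * Q) := by
    rw [← hFG]
    exact le_trans (le_of_eq (by ring)) (mul_le_mul_of_nonneg_right hvl hG0.le)
  have c2 : (v : ℝ) * (δ ^ 2 * Q) ≤ 31 * (T * w * (K + 1)) := by
    rw [← hFG]
    exact le_trans (mul_le_mul_of_nonneg_right hvu hG0.le) (le_of_eq (by ring))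
  by_cases hu : n < v ^ 2
  · have hnv : (n : ℝ) ≤ (v : ℝ) ^ 2 := by exact_mod_cast hu.le
    exact core4 n 1 Q δ s w T (K + 1) K A C v hnR le_rfl hQ0 hQ1 hδ0 hδ1 hsR hwR hTR hK0 rfl hA1
      hAQ hC4 hX hv1R c2 hnv
  · rw [not_lt] at hu
    have hupos : 0 < v ^ 2 := Nat.pow_pos hv1
    set k : ℕ := n / v ^ 2 with hk
    have hk1 : 1 ≤ k := (Nat.one_le_div_iff hupos).2 hu
    have hku : k * v ^ 2 ≤ n := Nat.div_mul_le_self _ _
    have hkn : n ≤ 2 * k * v ^ 2 := by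
      have h1 : n < v ^ 2 * (n / v ^ 2 + 1) := Nat.lt_mul_div_succ n hupos
      have h2 : v ^ 2 * (n / v ^ 2 + 1) ≤ v ^ 2 * (2 * k) :=
        Nat.mul_le_mul_left _ (by rw [← hk]; omega)
      calc n ≤ v ^ 2 * (2 * k) := le_trans h1.le h2
        _ = 2 * k * v ^ 2 := by ring
    have hk0 : (0 : ℝ) < k := by exact_mod_cast hk1
    have hy0 : 0 < δ / v := by positivity
    have hy1 : δ / v ≤ 1 := by
      rw [div_le_one hv0]; linarith
    have hyQ0 : 0 < δ / v * Q := by positivity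
    have hyQ1 : δ / v * Q ≤ 1 := mul_le_one₀ hy1 hQ0.le hQ1
    set V : ℕ := ⌈4 * (K + 1) / (δ / v * Q)⌉₊ with hV
    have hVl : 4 * (K + 1) ≤ V * (δ / v * Q) := by
      have := Nat.le_ceil (4 * (K + 1) / (δ / v * Q))
      rwa [div_le_iff₀ hyQ0] at this
    have hVu : V * (δ / v * Q) ≤ 5 * (K + 1) := by
      have h1 := (Nat.ceil_lt_add_one (by positivity : 0 ≤ 4 * (K + 1) / (δ / v * Q))).le
      have h2 := mul_le_mul_of_nonneg_right h1 hyQ0.le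
      have h3 : (4 * (K + 1) / (δ / v * Q) + 1) * (δ / v * Q) = 4 * (K + 1) + δ / v * Q := by
        field_simp
      rw [h3] at h2
      linarith
    have hH := H k (v ^ 2) V t q (δ / v) hk1 hupos hku ht1 hrt hq0 hq1 hy0 hy1 hVl
    have hcore := core3 n 1 Q δ η s w T (K + 1) K A 1 C v k hnR le_rfl hQ0 hδ0 hδ1 hη0 hηD hsR
      hwR hTR hK0 rfl hA1 hAQ zero_le_one hC1 hC2 hC3 hC0 hX.le hv1R c1 c2 hk0
      (by exact_mod_cast hkn) V hVu
    push_cast at hH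
    exact absurd hH (not_le.2 hcore)

end Pool.Agent.J4H17.CDC
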